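import Pool.Agent.P.MP_9014a2_lc.W.Defs
import Pool.Agent.P.MP_9014a2_lc.Model

/-!
List forms of `T1` and `T2`, monotonicity in the exponent, closed classes in Scott ideals.
-/

namespace Pool.Agent.P.MP_9014a2_lc

open Pool.Agent.Lib.Helper43 Encodable

variable {k m : ℕ} {I : Set (ℕ → Bool)} {X Y : ℕ → Bool}

theorem TuringIdeal.red (hI : TuringIdeal I) (hX : X ∈ I) (h : Red Y X) : Y ∈ I :=
  hI.red_mem X hX Y (red_iff.1 h)

/-- list form of the free set principle -/
def L1 (I : Set (ℕ → Bool)) (k : ℕ) : Prop :=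
  ∀ X ∈ I, ∀ F : List ℕ → ℕ, CI X F → ∃ A ∈ I, {n | A n = true}.Infinite ∧
    ∀ l : List ℕ, l.length = k → (∀ x ∈ l, A x = true) → A (F l) = true → F l ∈ l

/-- list form of the thin set principle -/
def L2 (I : Set (ℕ → Bool)) (k : ℕ) : Prop :=
  ∀ X ∈ I, ∀ F : List ℕ → ℕ, CI X F → ∃ A ∈ I, {n | A n = true}.Infinite ∧
    ∃ c, ∀ l : List ℕ, l.length = k → (∀ x ∈ l, A x = true) → F l ≠ c

namespace WL

/-- a function on tuples is computable from its graph -/
theorem of_graph {G : ℕ → Bool} {F : (Fin m → ℕ) → ℕ} (hF : IsGraph G F) :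
    ∃ Fh : List ℕ → ℕ, CI G Fh ∧ ∀ x, Fh (List.ofFn x) = F x := by
  let Fh : List ℕ → ℕ := fun l => if l.length = m then F (fun i => l.getD i 0) else 0
  have h0 : CI G G := CI.oracle
  refine ⟨Fh, ?_, fun x => by simp only [Fh, List.length_ofFn, if_true, Model.getD_ofFn]⟩
  refine CI.of_graph (Sig.of_di (DI.of_iff (p := fun x : List ℕ × ℕ =>
    (x.1.length = m ∧ G (Nat.pair (encode x.1) x.2) = true) ∨ (¬ x.1.length = m ∧ x.2 = 0))
    ?_ ?_))
  · have h2 : CI G fun x : List ℕ × ℕ => encode x.1 :=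
      CI.of_comp (Computable.encode.comp Computable.fst)
    fun_prop
  · rintro ⟨l, v⟩
    by_cases hl : l.length = m
    · simp only [Fh, hl, true_and, not_true, false_and, or_false, if_true, hF _]
      constructor
      · rintro ⟨x, hx⟩
        obtain ⟨h3, h4⟩ := Nat.pair_eq_pair.1 hx
        rw [encode_injective h3, Model.getD_ofFn, h4]
      · rintro rfl
        exact ⟨_, by rw [Model.ofFn_getD hl]⟩
    · simp only [Fh, hl, false_and, not_false_iff, true_and, false_or, if_false]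
      exact eq_comm

/-- the graph of a computable function is computable -/
theorem to_graph (m : ℕ) {F : List ℕ → ℕ} (hF : CI X F) :
    ∃ G, Red G X ∧ IsGraph G fun x : Fin m → ℕ => F (List.ofFn x) := by
  let d : ℕ → List ℕ := fun n => (decode (α := List ℕ) n.unpair.1).getD []
  have hd : CI X d :=
    CI.of_comp (CFP.optGetD (Computable.decode.comp (by fun_prop)) (by fun_prop))
  have he : CI X fun n => encode (d n) := (CI.of_comp Computable.encode).comp hd
  have h4 : CI X fun n => decide ((d n).length = m ∧ encode (d n) = n.unpair.1 ∧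
      F (d n) = n.unpair.2) := by fun_prop
  refine ⟨_, h4, fun n => ?_⟩
  rw [decide_eq_true_eq]
  constructor
  · rintro ⟨e1, e2, e3⟩
    exact ⟨fun i => (d n).getD i 0, by
      beta_reduce
      rw [Model.ofFn_getD e1, e2, e3, Nat.pair_unpair]⟩
  · rintro ⟨x, rfl⟩
    simp [d]

theorem getD_mem {l : List ℕ} (hl : l.length = m) (i : Fin m) : l.getD i 0 ∈ l := by
  rw [List.getD_eq_getElem _ _ (hl ▸ i.2)]
  exact List.getElem_mem _

end WL

open WL

theorem t1_iff (hI : TuringIdeal I) : T1 I k ↔ L1 I k := by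
  constructor
  · intro h X hX F hF
    obtain ⟨G, hG, hg⟩ := to_graph k hF
    obtain ⟨A, hA, h1, h2⟩ := h _ ⟨G, hI.red hX hG, hg⟩
    refine ⟨A, hA, h1, fun l hl h3 h4 => ?_⟩
    have h5 := h2 (fun i => l.getD i 0) fun i => h3 _ (getD_mem hl i)
    simp only [Model.ofFn_getD hl] at h5
    obtain ⟨i, hi⟩ := h5 h4
    exact hi ▸ getD_mem hl i
  · rintro h F ⟨G, hG, hF⟩
    obtain ⟨Fh, h1, e⟩ := of_graph hF
    obtain ⟨A, hA, h2, h3⟩ := h G hG Fh h1
    refine ⟨A, hA, h2, fun x hx hx' => ?_⟩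
    have h4 := h3 (List.ofFn x) List.length_ofFn
      (fun y hy => by obtain ⟨i, rfl⟩ := List.mem_ofFn.1 hy; exact hx i) (by rwa [e])
    rw [e] at h4
    obtain ⟨i, hi⟩ := List.mem_ofFn.1 h4
    exact ⟨i, hi.symm⟩

theorem t2_iff (hI : TuringIdeal I) : T2 I k ↔ L2 I k := by
  constructor
  · intro h X hX F hF
    obtain ⟨G, hG, hg⟩ := to_graph k hF
    obtain ⟨A, hA, h1, c, h2⟩ := h _ ⟨G, hI.red hX hG, hg⟩
    refine ⟨A, hA, h1, c, fun l hl h3 => ?_⟩
    have h5 := h2 (fun i => l.getD i 0) fun i => h3 _ (getD_mem hl i)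
    simpa only [Model.ofFn_getD hl] using h5
  · rintro h F ⟨G, hG, hF⟩
    obtain ⟨Fh, h1, e⟩ := of_graph hF
    obtain ⟨A, hA, h2, c, h3⟩ := h G hG Fh h1
    refine ⟨A, hA, h2, c, fun x hx => ?_⟩
    rw [← e]
    exact h3 (List.ofFn x) List.length_ofFn
      fun y hy => by obtain ⟨i, rfl⟩ := List.mem_ofFn.1 hy; exact hx i

theorem L2.mono (h : L2 I k) (hm : m ≤ k) : L2 I m := by
  intro X hX F hF
  obtain ⟨A, hA, h1, c, h2⟩ := h X hX (fun l => F (l.take m)) (by fun_prop)
  obtain ⟨a, ha⟩ := h1.nonempty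
  refine ⟨A, hA, h1, c, fun l hl h3 => ?_⟩
  have h4 := h2 (l ++ List.replicate (k - m) a) (by simp; omega) fun x hx => by
    rcases List.mem_append.1 hx with hx | hx
    · exact h3 x hx
    · rw [List.eq_of_mem_replicate hx]; exact ha
  rwa [List.take_left' hl] at h4

theorem L1.mono (h : L1 I k) (h0 : 1 ≤ m) (hm : m ≤ k) : L1 I m := by
  intro X hX F hF
  obtain ⟨A, hA, h1, h2⟩ := h X hX (fun l => F (l.take m)) (by fun_prop)
  refine ⟨A, hA, h1, fun l hl h3 h5 => ?_⟩
  obtain ⟨a, ha⟩ := List.exists_mem_of_length_pos (l := l) (by omega)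
  have hs : ∀ x ∈ l ++ List.replicate (k - m) a, x ∈ l := fun x hx => by
    rcases List.mem_append.1 hx with hx | hx
    · exact hx
    · rw [List.eq_of_mem_replicate hx]; exact ha
  have h4 := h2 (l ++ List.replicate (k - m) a) (by simp; omega) fun x hx => h3 x (hs x hx)
  rw [List.take_left' hl] at h4
  exact hs _ (h4 h5)

theorem T2.mono (hI : TuringIdeal I) (h : T2 I k) (hm : m ≤ k) : T2 I m :=
  (t2_iff hI).2 (((t2_iff hI).1 h).mono hm)

theorem T1.mono (hI : TuringIdeal I) (h : T1 I k) (h0 : 1 ≤ m) (hm : m ≤ k) : T1 I m :=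
  (t1_iff hI).2 (((t1_iff hI).1 h).mono h0 hm)

/-- infinite binary trees have paths -/
theorem konig {T : ℕ → Bool} (hT : IsTree T)
    (hi : {s : List Bool | T (encode s) = true}.Infinite) :
    ∃ Z, ∀ n, T (encode (seg Z n)) = true := by
  by_contra hc
  simp only [not_exists, not_forall] at hc
  obtain ⟨N, hN⟩ := compact_seg (q := fun τ => ¬ T (encode τ) = true) hc
  obtain ⟨t, ht, hl⟩ := hi.exists_notMem_finite (List.finite_length_lt Bool N)
  have hl' : N ≤ t.length := not_lt.1 hl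
  obtain ⟨s, hs, h⟩ := hN fun i => t.getD i false
  refine h (hT _ t ?_ ht)
  have e : seg (fun i => t.getD i false) s = t.take s :=
    List.ext_getElem (by simp; omega) fun i h1 h2 => by
      have : i < t.length := by simp at h2; omega
      simp [seg, this]
  rw [e]
  exact List.take_prefix _ _

/-- a nonempty closed class relative to a member of a Scott ideal meets the ideal -/
theorem ScottIdeal.closed (hI : ScottIdeal I) (hX : X ∈ I) {P : (ℕ → Bool) → Prop}
    (hP : Op X P) (hne : ∃ Z, ¬ P Z) : ∃ Z ∈ I, ¬ P Z := by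
  classical
  obtain ⟨q, ⟨r, hr, er⟩, e⟩ := hP
  let d : ℕ → List Bool := fun n => (decode (α := List Bool) n).getD []
  have hd : CI X d := CI.of_comp (CFP.optGetD Computable.decode (by fun_prop))
  let p : List Bool → Prop := fun t =>
    ∀ i < t.length + 1, ∀ n < t.length + 1, ¬ r (((), t.take i), n)
  have hp : DI X p := by
    refine DI.allLt (DI.allLt (DI.not ?_) (by fun_prop)) (by fun_prop)
    exact hr.comp (g := fun x : (List Bool × ℕ) × ℕ => (((), x.1.1.take x.1.2), x.2))
      (by fun_prop)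
  let T : ℕ → Bool := fun n => decide (p (d n))
  have hT : Red T X := CI.decide (hp.comp hd)
  have eT : ∀ t, T (encode t) = true ↔ p t := fun t => by simp [T, d]
  have key : ∀ Z, (∀ n, p (seg Z n)) ↔ ¬ P Z := fun Z => by
    constructor
    · intro h hZ
      obtain ⟨s, hs⟩ := (e Z ()).1 hZ
      obtain ⟨n, hn⟩ := (er _).1 hs
      refine h (max s n) s (by simp) n (by simp) ?_
      rwa [seg_take Z (le_max_left _ _)]
    · intro h N i hi n _ hn
      rw [seg_take Z (by simpa [Nat.lt_succ_iff] using hi)] at hn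
      exact h ((e Z ()).2 ⟨i, (er _).2 ⟨n, hn⟩⟩)
  obtain ⟨Z0, h0⟩ := hne
  obtain ⟨Z, hZ, h⟩ := hI.path T (hI.toTuringIdeal.red hX hT) (fun s t hst ht => by
      rw [eT] at ht ⊢
      intro i hi n hn
      have hl := hst.length_le
      have := ht i (by omega) n (by omega)
      obtain ⟨u, rfl⟩ := hst
      rwa [List.take_append_of_le_length (by omega)] at this)
    (Set.infinite_of_injective_forall_mem (f := seg Z0)
      (fun a b hab => by simpa using congrArg List.length hab)
      fun n => (eT _).2 ((key Z0).2 h0 n))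
  exact ⟨Z, hZ, (key Z).1 fun n => (eT _).1 (h n)⟩

end Pool.Agent.P.MP_9014a2_lc
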