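import Pool.Agent.P.MP_9014a2_lc.W.Iface
import Pool.Agent.P.MP_9014a2_lc.Limit
import Pool.Agent.P.MP_9014a2_lc.Approx
import Pool.Agent.P.MP_9014a2_lc.Model

/-! Transfer of thin sets: from tuples to decreasing lists, along a jump, and to several
colourings at once. -/

namespace Pool.Agent.P.MP_9014a2_lc.TF

open Pool.Agent.Lib.Helper43 Encodable Filter

namespace Thin

/-- the increasing enumeration of an infinite set -/
theorem exists_enum {A : ℕ → Bool} (hA : {n | A n = true}.Infinite) :
    ∃ lam : ℕ → ℕ, StrictMono lam ∧ CI A lam ∧ ∀ i, A (lam i) = true := by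
  have h0 : CI A A := CI.oracle
  obtain ⟨R, h1, -, h2⟩ := exists_path (X := A) (r := fun s s' : ℕ => s < s' ∧ A s' = true)
    (I := fun _ => True) (Sig.of_di (by fun_prop)) (s0 := 0) trivial (fun _ _ _ _ => trivial)
    fun s _ => by
      obtain ⟨t, ht, h⟩ := hA.exists_gt s
      exact ⟨t, h, ht⟩
  exact ⟨fun t => R (t + 1), strictMono_nat_of_lt_succ fun t => (h2 (t + 1)).1,
    h1.comp (g := fun t : ℕ => t + 1) (by fun_prop), fun t => (h2 t).2⟩

end Thin

theorem all_th0 : S_th0 := by
  intro I k n hI h2 hn X hX F h3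
  let d : ℕ → List ℕ := fun n => (decode (α := List ℕ) n.unpair.1).getD []
  have hd : CI X d :=
    CI.of_comp (CFP.optGetD (Computable.decode.comp (by fun_prop)) (by fun_prop))
  have he : CI X fun n => encode (d n) := (CI.of_comp Computable.encode).comp hd
  have h4 : CI X fun j => decide ((d j).length = k ∧ encode (d j) = j.unpair.1 ∧
      F ((d j).take n) = j.unpair.2) := by fun_prop
  obtain ⟨A, hA, h5, c, h6⟩ := h2 (fun x => F ((List.ofFn x).take n))
    ⟨_, hI.red_mem X hX _ (red_iff.1 h4), fun j => by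
      rw [decide_eq_true_eq]
      constructor
      · rintro ⟨e1, e2, e3⟩
        exact ⟨fun i => (d j).getD i 0, by
          beta_reduce
          rw [Model.ofFn_getD e1, e2, e3, Nat.pair_unpair]⟩
      · rintro ⟨x, rfl⟩
        simp [d]⟩
  obtain ⟨lam, h7, h8, h9⟩ := Thin.exists_enum h5
  refine ⟨lam, h7, ⟨A, hA, h8⟩, c, fun l e1 _ e3 => ?_⟩
  refine h6 (fun i => (l.map lam).getD i (lam 0)) (fun i => ?_) ?_
  · by_cases hi : i.val < (l.map lam).length
    · rw [List.getD_eq_getElem _ _ hi, List.getElem_map]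
      exact h9 _
    · rw [List.getD_eq_default _ _ (not_lt.1 hi)]
      exact h9 0
  · rw [← e3]
    refine congrArg F (List.ext_getElem (by simp; omega) fun i h1 h2 => ?_)
    have h2' : i < l.length := by simpa using h2
    simp [h2']

theorem all_th1 : S_th1 := by
  intro I n _ h X hX G h1
  obtain ⟨f, h3, h4⟩ := Limit.limit all_approx X (fun n => G ((decode n).getD []))
    (h1.comp (.of_comp (Primrec.option_getD.comp Primrec.decode (.const [])).to_comp))
  obtain ⟨lam, h5, h6, c, h7⟩ := h X hX (fun l => f (encode l.tail, l.getD 0 0))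
    (h3.comp (.of_comp ((Primrec.encode.comp Primrec.list_tail).pair
        ((Primrec.list_getD 0).comp .id (.const 0))).to_comp))
  refine ⟨lam, h5, h6, c, fun l e1 e2 e3 => ?_⟩
  obtain ⟨N, hN⟩ := eventually_atTop.1 (h4 (encode (l.map lam)))
  refine h7 ((N + l.sum + 1) :: l) (by simp [e1]) (List.pairwise_cons.2 ⟨fun x hx => ?_, e2⟩) ?_
  · have := List.le_sum_of_mem hx
    omega
  · have := hN (lam (N + l.sum + 1)) (le_trans (show N ≤ N + l.sum + 1 by omega) (h5.id_le _))
    simpa [encodek, e3] using this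

theorem all_thm : S_thm := by
  intro I n r hI h
  induction r with
  | zero =>
    rintro f ⟨X, hX, -⟩
    exact ⟨fun i => i, strictMono_id, ⟨X, hX, CI.id⟩, 0, fun e he => absurd he (Nat.not_lt_zero e)⟩
  | succ r ih =>
    rintro f ⟨X, hX, hf⟩
    obtain ⟨l1, h1, h2, c1, h3⟩ := ih (fun p => (f p).unpair.2) ⟨X, hX, by fun_prop⟩
    obtain ⟨Z, hZ, h4, h5⟩ := h2.above hI hX
    have hf' : CI Z f := hf.mono h4
    obtain ⟨l2, h6, h7, c2, h8⟩ := h Z hZ (fun l => (f (r, l.map l1)).unpair.1) (by fun_prop)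
    refine ⟨fun i => l1 (l2 i), h1.comp h6, In.comp hI h2 h7, Nat.pair c2 c1,
      fun e he l e1 e2 e3 => ?_⟩
    have e4 : (l.map fun i => l1 (l2 i)) = (l.map l2).map l1 := by simp
    rw [e4] at e3
    rcases (Nat.lt_succ_iff_lt_or_eq.1 he) with he | rfl
    · exact h3 e he (l.map l2) (by simp [e1])
        (List.pairwise_map.2 (e2.imp fun hab => h6 hab)) (by simp only [e3, Nat.unpair_pair])
    · exact h8 l e1 e2 (by simp only [e3, Nat.unpair_pair])

end Pool.Agent.P.MP_9014a2_lc.TF
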