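import Pool.Agent.P.MP_9014a2_lc.W.Lists
import Pool.Agent.P.MP_9014a2_lc.AliveT
import Pool.Agent.P.MP_9014a2_lc.Approx
import Pool.Agent.P.MP_9014a2_lc.B12
import Pool.Agent.P.MP_9014a2_lc.B3
import Pool.Agent.P.MP_9014a2_lc.Base
import Pool.Agent.P.MP_9014a2_lc.Dec
import Pool.Agent.P.MP_9014a2_lc.Delta
import Pool.Agent.P.MP_9014a2_lc.Delta0
import Pool.Agent.P.MP_9014a2_lc.ExtSig
import Pool.Agent.P.MP_9014a2_lc.ExtSol
import Pool.Agent.P.MP_9014a2_lc.Extract
import Pool.Agent.P.MP_9014a2_lc.Fb0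
import Pool.Agent.P.MP_9014a2_lc.Glue
import Pool.Agent.P.MP_9014a2_lc.Good
import Pool.Agent.P.MP_9014a2_lc.Ideal
import Pool.Agent.P.MP_9014a2_lc.Jock
import Pool.Agent.P.MP_9014a2_lc.Limit
import Pool.Agent.P.MP_9014a2_lc.Low
import Pool.Agent.P.MP_9014a2_lc.Pieces
import Pool.Agent.P.MP_9014a2_lc.PosSig
import Pool.Agent.P.MP_9014a2_lc.PosSplit
import Pool.Agent.P.MP_9014a2_lc.PosUp
import Pool.Agent.P.MP_9014a2_lc.Qop
import Pool.Agent.P.MP_9014a2_lc.ScottC
import Pool.Agent.P.MP_9014a2_lc.Sec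
import Pool.Agent.P.MP_9014a2_lc.Serve
import Pool.Agent.P.MP_9014a2_lc.Top
import Pool.Agent.P.MP_9014a2_lc.Ult

/-!
Scott ideals that separate the levels, and the table of implications.
-/

namespace Pool.Agent.P.MP_9014a2_lc

open Encodable

theorem all_fs : S_fs :=
  glue_fs all_low all_scott (all_base (all_delta0 all_ult))
    (glue_step all_pieces all_sec (all_delta all_ult all_posUp all_posSplit all_posSig) all_fb0
      (all_extSig all_fb0) all_good all_b12 (all_b3 all_b12) (all_nsServe all_good all_alive)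
      (all_nsDec all_good (all_qop all_fb0)) (all_extract all_good) all_extractSol)
    (all_top all_pieces)

namespace Wit

/-- the set coded by a function on lists -/
def tr (F : List ℕ → ℕ) : ℕ → Bool := fun n => decide (F [n] = 1)

/-- a free set joined with a path -/
def Sol (k : ℕ) (F : List ℕ → ℕ) (H : ℕ → Bool) : Prop :=
  ∃ A Z, H = join A Z ∧ Free k F A ∧ (IsTree (tr F) →
    {s : List Bool | tr F (encode s) = true}.Infinite → ∀ n, tr F (encode (seg Z n)) = true)

theorem low_path {X : ℕ → Bool} {T : ℕ → Bool} (hT : Red T X) :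
    ∃ Z, Red (jump (join X Z)) (jump X) ∧ (IsTree T →
      {s : List Bool | T (encode s) = true}.Infinite → ∀ n, T (encode (seg Z n)) = true) := by
  by_cases h : IsTree T ∧ {s : List Bool | T (encode s) = true}.Infinite
  · obtain ⟨Z0, h0⟩ := konig h.1 h.2
    have h1 : CI X T := hT
    have h2 : CI X fun x : Unit × List Bool => encode x.2 :=
      CI.of_comp (Computable.encode.comp Computable.snd)
    have hP : Op X fun Z => ∃ n, ¬ T (encode (seg Z n)) = true :=
      ⟨fun x => ¬ T (encode x.2) = true, Sig.of_di (by fun_prop), fun _ _ => Iff.rfl⟩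
    obtain ⟨Z, hZ, hr⟩ := all_low X _ hP ⟨Z0, fun ⟨n, hn⟩ => hn (h0 n)⟩
    exact ⟨Z, hr, fun _ _ n => by_contra fun hn => hZ ⟨n, hn⟩⟩
  · exact ⟨X, ((Red.refl X).join (Red.refl X)).jump, fun a b => (h ⟨a, b⟩).elim⟩

theorem step {k : ℕ} (hk : 1 ≤ k) (X : ℕ → Bool) (F : List ℕ → ℕ) (hF : CI X F) :
    ∃ H, Sol k F H ∧ Red (jump^[k] (join H X)) (jump^[k] X) := by
  obtain ⟨A, h1, h2⟩ := all_fs k X F hk hF
  have hT : Red (tr F) X := by
    unfold tr Red
    fun_prop
  obtain ⟨Z, h3, h4⟩ := low_path (hT.trans (red_right A X))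
  refine ⟨join A Z, ⟨A, Z, rfl, h1, h4⟩, ?_⟩
  obtain ⟨n, rfl⟩ : ∃ n, k = n + 1 := ⟨k - 1, by omega⟩
  have h5 : Red (join (join A Z) X) (join (join A X) Z) :=
    (((red_left A X).trans (red_left _ _)).join (red_right _ _)).join
      ((red_right A X).trans (red_left _ _))
  exact (h5.iterate (n + 1)).trans ((h3.iterate n).trans h2)

end Wit

/-- a Scott ideal in which the principles hold exactly up to level `k` -/
theorem scott_wit {k : ℕ} (hk : 1 ≤ k) : ∃ I, ScottIdeal I ∧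
    ∀ m, (m ≤ k → 1 ≤ m → T1 I m ∧ T2 I m) ∧ (k < m → ¬ T1 I m ∧ ¬ T2 I m) := by
  obtain ⟨I, hI, hL, hsol⟩ := all_ideal {X | Red (jump^[k] X) (jump^[k] fun _ => false)}
    (Wit.Sol k) ⟨_, Red.refl _⟩ (fun X hX Y h => (h.iterate k).trans hX) fun X hX F hF => by
      obtain ⟨H, h1, h2⟩ := Wit.step hk X F hF
      exact ⟨H, h1, h2.trans hX⟩
  refine ⟨I, ⟨hI, fun T hT h1 h2 => ?_⟩, ?_⟩
  · have h0 : CI T T := CI.oracle
    have hF : CI T fun l : List ℕ => if T (l.getD 0 0) = true then 1 else 0 := by fun_prop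
    obtain ⟨H, hH, A, Z, rfl, -, h3⟩ := hsol T hT _ hF
    have e : Wit.tr (fun l : List ℕ => if T (l.getD 0 0) = true then 1 else 0) = T :=
      funext fun n => by cases h : T n <;> simp [Wit.tr, h]
    rw [e] at h3
    exact ⟨Z, hI.red hH (red_right _ _), h3 h1 h2⟩
  · obtain ⟨n, rfl⟩ : ∃ n, k = n + 1 := ⟨k - 1, by omega⟩
    obtain ⟨F, hF, h⟩ := all_tsLow all_approx (all_jock all_approx) n fun _ => false
    refine all_model (n + 1) I hI (fun X hX F hF => ?_)
      ⟨F, hF, fun A hA => h A ((red_iterate A _).trans (hL hA))⟩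
    obtain ⟨H, hH, A, Z, rfl, h3, -⟩ := hsol X hX F hF
    exact ⟨A, hI.red hH (red_left _ _), h3⟩

/-- the full power set is a Scott ideal -/
theorem scott_univ : ScottIdeal Set.univ :=
  ⟨⟨Set.univ_nonempty, fun _ _ _ _ => trivial, fun _ _ _ _ => trivial⟩, fun _ _ h1 h2 =>
    let ⟨Z, h⟩ := konig h1 h2; ⟨Z, trivial, h⟩⟩

theorem t1_univ {k : ℕ} (hk : 1 ≤ k) : T1 Set.univ k :=
  Model.t1 (k := k) (fun X _ F hF => let ⟨H, h, _⟩ := all_fs k X F hk hF; ⟨H, trivial, h⟩) le_rfl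

/-- the thin set principle implies the free set principle in Scott ideals -/
def S_A : Prop := ∀ k : ℕ, 1 ≤ k → ∀ I, ScottIdeal I → T2 I k → T1 I k

theorem table (hA : S_A) (k m : ℕ∞) (hk : 1 ≤ k) (hm : 1 ≤ m)
    (P Q : Set (ℕ → Bool) → ℕ → Prop) (hP : P = T1 ∨ P = T2) (hQ : Q = T1 ∨ Q = T2) :
    (∀ I, ScottIdeal I → Lvl P I k → Lvl Q I m) ↔ m ≤ k := by
  constructor
  · intro h
    by_contra hn
    rw [not_le] at hn
    lift k to ℕ using hn.ne_top
    have hk' : 1 ≤ k := by exact_mod_cast hk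
    obtain ⟨I, hI, h1⟩ := scott_wit hk'
    have h2 : ∀ j, k < j → ¬ Q I j := fun j hj => by
      rcases hQ with rfl | rfl
      · exact ((h1 j).2 hj).1
      · exact ((h1 j).2 hj).2
    have h3 := h I hI ⟨fun j hj => by
      obtain rfl : k = j := by exact_mod_cast hj
      rcases hP with rfl | rfl
      · exact ((h1 k).1 le_rfl hk').1
      · exact ((h1 k).1 le_rfl hk').2, fun hj => absurd hj (ENat.natCast_ne_top k)⟩
    induction m using ENat.recTopCoe with
    | top => exact h2 (k + 1) (Nat.lt_succ_self k) (h3.2 rfl _ (by omega))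
    | coe m => exact h2 m (by exact_mod_cast hn) (h3.1 m rfl)
  · intro hmk I hI h
    have h1 : ∀ j, P I j → T2 I j := fun j hj => by
      rcases hP with rfl | rfl
      · exact Model.t2 hI.toTuringIdeal hj
      · exact hj
    have h2 : ∀ j : ℕ, 1 ≤ j → (j : ℕ∞) ≤ k → Q I j := fun j h0 hj => by
      have h3 : T2 I j := by
        induction k using ENat.recTopCoe with
        | top => exact h1 j (h.2 rfl j h0)
        | coe k => exact T2.mono hI.toTuringIdeal (h1 k (h.1 k rfl)) (by exact_mod_cast hj)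
      rcases hQ with rfl | rfl
      · exact hA j h0 I hI h3
      · exact h3
    refine ⟨fun j hj => h2 j (by rw [hj] at hm; exact_mod_cast hm) (hj ▸ hmk), fun ht j h0 => ?_⟩
    exact h2 j h0 (le_top.trans (ht ▸ hmk))

end Pool.Agent.P.MP_9014a2_lc
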