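import Pool.Agent.P.MP_9014a2_lc.W.Iface

/-! Arithmetic of four compressions, and bounded choice. -/

namespace Pool.Agent.P.MP_9014a2_lc.TF

open Pool.Agent.Lib.Helper43 Encodable Filter

namespace Arith

theorem stA (D C : ℕ) : ∃ C₁, ∀ x y, x ≤ C * 2 ^ y → st D x ≤ C₁ * (y + 1) := by
  refine ⟨D * (2 * D * (C.size + 2) + 1), fun x y h => ?_⟩
  have h1 : x.size ≤ C.size + y := by
    rw [Nat.size_le, pow_add]
    exact h.trans_lt (Nat.mul_lt_mul_of_pos_right (Nat.lt_size_self C) (by positivity))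
  have h2 : x.size + 1 ≤ (C.size + 2) * (y + 1) := by nlinarith
  rw [st, tt, mul_assoc D]
  refine Nat.mul_le_mul_left _ ?_
  have := Nat.mul_le_mul_left (2 * D) h2
  nlinarith

theorem succ_le (y : ℕ) : 2 ^ y + 1 ≤ 2 * 2 ^ y := by
  have := Nat.one_le_two_pow (n := y)
  omega

theorem four (G D : ℕ) : ∃ C, ∀ b, (st D)^[4] (2 ^ 2 ^ (2 ^ 2 ^ b * G)) ≤ C * (b + 1) := by
  obtain ⟨C₁, h₁⟩ := stA D 1
  obtain ⟨C₂, h₂⟩ := stA D (C₁ * 2)
  obtain ⟨C₃, h₃⟩ := stA D (C₂ * (G + 1))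
  obtain ⟨C₄, h₄⟩ := stA D (C₃ * 2)
  refine ⟨C₄, fun b => ?_⟩
  change st D (st D (st D (st D _))) ≤ _
  refine h₄ _ _ ((h₃ _ (2 ^ b) ((h₂ _ (2 ^ 2 ^ b * G) ((h₁ _ _ (one_mul _).ge).trans ?_)).trans
    ?_)).trans ?_)
  · rw [mul_assoc]
    exact Nat.mul_le_mul_left _ (succ_le _)
  · rw [mul_assoc]
    refine Nat.mul_le_mul_left _ ?_
    have := Nat.one_le_two_pow (n := 2 ^ b)
    nlinarith
  · rw [mul_assoc]
    exact Nat.mul_le_mul_left _ (succ_le _)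

theorem poly (K j : ℕ) : ∃ b, K * (b + 1) ^ j < 2 ^ b := by
  have h := (tendsto_pow_const_div_const_pow_of_one_lt j (r := 2) one_lt_two).const_mul
    (2 * K : ℝ)
  rw [mul_zero] at h
  obtain ⟨m, hm, h1⟩ := ((h.eventually (gt_mem_nhds one_pos)).and (eventually_ge_atTop 1)).exists
  obtain ⟨b, rfl⟩ : ∃ b, m = b + 1 := ⟨m - 1, by omega⟩
  refine ⟨b, ?_⟩
  rw [← mul_div_assoc, div_lt_one (by positivity), pow_succ (2 : ℝ)] at hm
  have : ((K * (b + 1) ^ j : ℕ) : ℝ) < (2 ^ b : ℕ) := by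
    push_cast at hm ⊢
    linarith
  exact_mod_cast this

end Arith

theorem all_ar : S_ar := by
  intro j G D P
  obtain ⟨C, hC⟩ := Arith.four G D
  obtain ⟨b, hb⟩ := Arith.poly (C ^ j * G + D + P) j
  have h1 : 1 ≤ (b + 1) ^ j := Nat.one_le_pow _ _ b.succ_pos
  have h2 : ((st D)^[4] (2 ^ 2 ^ (2 ^ 2 ^ b * G))) ^ j * G ≤ C ^ j * G * (b + 1) ^ j := by
    rw [mul_right_comm, ← mul_pow]
    exact Nat.mul_le_mul_right _ (Nat.pow_le_pow_left (hC b) _)
  have h3 : (D + P) * 1 ≤ (D + P) * (b + 1) ^ j := Nat.mul_le_mul_left _ h1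
  rw [add_assoc, add_mul] at hb
  refine ⟨2 ^ 2 ^ b, (show P < 2 ^ b by omega).trans Nat.lt_two_pow_self, ?_⟩
  refine (Nat.mul_lt_mul_of_pos_left (Nat.lt_two_pow_self (n := D)) (by positivity)).trans_le ?_
  rw [← pow_add]
  exact Nat.pow_le_pow_right two_pos (by omega)

theorem all_ch : S_ch := by
  intro I _ hW X hX Bad b hB hb hex
  choose f hf using hex
  have hP : Op X fun Z => ∃ i : ℕ, (∀ e < b i, Z (Nat.pair i e) = false) ∨
      ∃ e : ℕ, Z (Nat.pair i e) = true ∧ Bad (i, e) := by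
    refine S1.ex (S1.or (S1.allLt (S1.query (by fun_prop) (by fun_prop)) (by fun_prop))
      (S1.ex (S1.and (S1.query (by fun_prop) (by fun_prop)) (S1.of_sig ?_))))
    exact hB.comp (g := fun x : (Unit × ℕ) × ℕ => (x.1.2, x.2)) (by fun_prop)
  obtain ⟨Z, hZ, h⟩ := hW X hX _ hP ⟨fun n => decide (n.unpair.2 = f n.unpair.1), by
    rintro ⟨i, h | ⟨e, h, h'⟩⟩
    · simpa using h _ (hf i).1
    · simp only [Nat.unpair_pair, decide_eq_true_eq] at h
      exact (hf i).2 (h ▸ h')⟩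
  simp only [not_exists, not_or, not_forall, not_and] at h
  have hex : ∀ i, ∃ e, Z (Nat.pair i e) = true := fun i =>
    let ⟨e, _, he⟩ := (h i).1
    ⟨e, by simpa using he⟩
  have := CI.oracle (X := Z)
  exact ⟨fun i => Nat.find (hex i), ⟨Z, hZ, CI.find (p := fun i e => Z (Nat.pair i e) = true)
    (inst := fun _ _ => inferInstance) (by fun_prop) hex⟩, fun i => (h i).2 _ (Nat.find_spec (hex i))⟩

end Pool.Agent.P.MP_9014a2_lc.TF
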