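import Pool.Agent.P.MP_9014a2_lc.W.Iface

/-! Few versions. -/

namespace Pool.Agent.P.MP_9014a2_lc.TF

open Pool.Agent.Lib.Helper43 Encodable Filter

namespace Cl

open Classical in
/-- the code of the set of all versions above `p.2` -/
noncomputable def un (a : ℕ × List ℕ → ℕ) (V : ℕ → ℕ) (e : ℕ) (p : ℕ × List ℕ) : ℕ :=
  fc ((Finset.range (V p.1)).filter fun v => ∃ ρ : List ℕ, ρ.length = e ∧ Ok p.1 (ρ ++ p.2) ∧
    a (p.1, ρ ++ p.2) = v)

variable {a : ℕ × List ℕ → ℕ} {V : ℕ → ℕ} {X : ℕ → Bool}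

theorem mem_un {e : ℕ} {p : ℕ × List ℕ} {v : ℕ} : v ∈ fd (un a V e p) ↔ v < V p.1 ∧
    ∃ ρ : List ℕ, ρ.length = e ∧ Ok p.1 (ρ ++ p.2) ∧ a (p.1, ρ ++ p.2) = v := by
  simp [un]

theorem un_lt (e : ℕ) (p : ℕ × List ℕ) : un a V e p < 2 ^ V p.1 := by
  classical
  exact fc_lt (Finset.filter_subset _ _)

theorem ci_un0 (ha : CI X a) (hV : CI X V) : CI X (un a V 0) := by
  unfold un
  refine (CI.of_comp computable_fc).comp (CI.filterF (DI.of_iff
    (p := fun x : (ℕ × List ℕ) × ℕ => Ok x.1.1 x.1.2 ∧ a x.1 = x.2) (by fun_prop) fun x => ?_)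
    (by fun_prop))
  simp [List.length_eq_zero_iff]

theorem ci_un (e : ℕ) (ha : CI X a) (hV : CI X V) : CI (jump X) (un a V e) := by
  unfold un
  have hV' := hV.mono (red_jump X)
  refine (CI.of_comp computable_fc).comp (CI.filterF (Sig.di_jump (Sig.ex (Sig.of_di ?_)))
    (by fun_prop))
  fun_prop

end Cl

open Cl

theorem all_cl (h : S_ocn) (h1 : S_th1) : S_cl := by
  classical
  intro I j hI hT X hX a V D ha hV hD hlt hP
  have key : ∀ e r, r + e = j → ∃ lam : ℕ → ℕ, StrictMono lam ∧ In I lam ∧ ∀ᶠ m in atTop,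
      ∀ π : List ℕ, π.length = r → ∃ S : Finset ℕ,
        S.card ≤ ((st (D m))^[4] (2 ^ V m)) ^ e ∧ ∀ ρ : List ℕ, ρ.length = e → Ok m (ρ ++ π) →
          a (m, (ρ ++ π).map lam) ∈ S := by
    intro e
    induction e with
    | zero =>
      refine fun r _ => ⟨fun i => i, strictMono_id, ⟨X, hX, CI.id⟩, Eventually.of_forall
        fun m π _ => ⟨{a (m, π)}, by simp, fun ρ hρ _ => ?_⟩⟩
      simp [List.length_eq_zero_iff.1 hρ]
    | succ e ih =>
      intro r hr
      obtain ⟨lam, l1, l2, l3⟩ := ih (r + 1) (by omega)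
      obtain ⟨Z, hZ, hXZ, l4⟩ := l2.above hI hX
      have ha' := ha.mono hXZ
      have ha1 : CI Z (re lam a) := by unfold re; fun_prop
      have hV' := hV.mono hXZ
      have hD' := hD.mono hXZ
      have hE : CI Z fun m => 2 ^ V m := by fun_prop
      obtain ⟨lam', k1, k2, k3⟩ : ∃ lam' : ℕ → ℕ, StrictMono lam' ∧ In I lam' ∧
          Few (re lam' (un (re lam a) V e)) r fun m => (st (D m))^[4] (2 ^ V m) := by
        rcases Nat.eq_zero_or_pos e with rfl | he
        · exact h I (fun X => X) r 4 hI (fun _ _ h => h) Red.refl (hT _ (by omega)) Z hZ _ _ D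
            (ci_un0 ha1 hV') hD' hE (un_lt 0) hP
        · exact h I jump r 4 hI (fun _ _ h => h.jump) red_jump (h1 I _ hI (hT _ (by omega))) Z hZ
            _ _ D (ci_un e ha1 hV') (hD'.mono (red_jump Z)) (hE.mono (red_jump Z)) (un_lt e) hP
      refine ⟨fun i => lam (lam' i), l1.comp k1, l2.comp hI k2, ?_⟩
      filter_upwards [l3, k3] with m m1 m2 π hπ
      obtain ⟨S, s1, s2⟩ := m2 π hπ
      refine ⟨(S.filter fun u => (fd u).card ≤ ((st (D m))^[4] (2 ^ V m)) ^ e).biUnion fd, ?_,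
        fun ρ hρ hok => ?_⟩
      · refine (Finset.card_biUnion_le_card_mul _ _ _ fun u hu => (Finset.mem_filter.1 hu).2).trans ?_
        rw [pow_succ']
        exact Nat.mul_le_mul_right _ ((Finset.card_filter_le _ _).trans s1)
      · obtain ⟨ρ, l, rfl⟩ : ∃ ρ' l, ρ = ρ' ++ [l] := by
          rcases List.eq_nil_or_concat ρ with rfl | ⟨ρ', l, rfl⟩
          · simp at hρ
          · exact ⟨ρ', l, List.concat_eq_append⟩
        rw [List.append_assoc, List.singleton_append] at hok ⊢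
        have hok' : Ok m (l :: π) := ⟨(List.pairwise_append.1 hok.1).2.1,
          fun x hx => hok.2 x (List.mem_append_right _ hx)⟩
        refine Finset.mem_biUnion.2 ⟨_, Finset.mem_filter.2 ⟨s2 l hok', ?_⟩, ?_⟩
        · obtain ⟨S', t1, t2⟩ := m1 ((l :: π).map lam') (by simp [hπ])
          refine (Finset.card_le_card fun v hv => ?_).trans t1
          obtain ⟨-, ρ', e1, e2, rfl⟩ := mem_un.1 hv
          exact t2 ρ' e1 e2
        · refine mem_un.2 ⟨hlt _, ρ.map lam', by simpa using hρ, ?_, ?_⟩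
          · rw [← List.map_append]
            exact hok.map k1
          · simp only [re, ← List.map_append, List.map_map]
            rfl
  obtain ⟨lam, l1, l2, l3⟩ := key j 0 (by omega)
  refine ⟨lam, l1, l2, l3.mono fun m hm => ?_⟩
  simpa using hm [] rfl

end Pool.Agent.P.MP_9014a2_lc.TF
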