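import Pool.Agent.P.MP_9014a2_lc.W.Iface

/-! Independence of all columns from twin columns. -/

namespace Pool.Agent.P.MP_9014a2_lc.TF

open Pool.Agent.Lib.Helper43 Encodable Filter

namespace IndF

/-- the function whose twin columns are needed -/
def tau (H : ℕ × List (ℕ × ℕ) → Bool) (s : ℕ × ℕ → ℕ × ℕ) (x : ℕ × (ℕ × ℕ) × List ℕ) : Bool :=
  H (x.1.unpair.1, (x.2.2.map (fun i => (i, 0)) ++
    x.2.1 :: (decode (α := List (ℕ × ℕ)) x.1.unpair.2).getD []).map s)

/-- the bound for the codes of the lower data -/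
def bd (g μ : ℕ → ℕ) (n P : ℕ) : ℕ :=
  Nat.pair (g (μ P)) (encode (List.replicate n (P, P))) + 1

theorem bd_mono {g μ : ℕ → ℕ} (hg : Monotone g) (hμ : StrictMono μ) (n : ℕ) :
    Monotone (bd g μ n) := fun P Q h => by
  refine Nat.succ_le_succ (pair_mono (hg (hμ.monotone h)) (encode_le _ _ _ (by simp) ?_))
  intro x hx
  rw [List.eq_of_mem_replicate hx]
  exact pair_mono h h

/-- one side of the step -/
theorem to_tau {H : ℕ × List (ℕ × ℕ) → Bool} {g : ℕ → ℕ} {j n : ℕ} {s1 s2 : ℕ × ℕ → ℕ × ℕ}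
    {m1 m2 : ℕ → ℕ} (h1 : Ind H g j (n + 1) s1 m1) (h2 : Sub s2 m2) {p a : ℕ}
    {b e : List (ℕ × ℕ)} {y : ℕ × ℕ} (ha : a < g (m1 (m2 p))) (hb : b.length = j)
    (he : e.length = n) (ho : Ok p ((b ++ y :: e).map Prod.fst)) (vb : ∀ z ∈ b, z.2 ≤ z.1)
    (vy : y.2 ≤ y.1) (ve : ∀ z ∈ e, z.2 ≤ z.1) :
    H (a, (b ++ y :: e).map fun z => s1 (s2 z)) =
      tau H s1 (Nat.pair a (encode (e.map s2)), s2 y, (b.map Prod.fst).map m2) := by
  have e0 : ∀ l : List (ℕ × ℕ), (l.map s2).map Prod.fst = (l.map Prod.fst).map m2 := fun l => by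
    simp only [List.map_map]
    exact List.map_congr_left fun z _ => h2.fst z
  have h3 := h1 (m2 p) a (b.map s2) (((b.map Prod.fst).map m2).map fun i => (i, 0))
    ((y :: e).map s2) ha (by simp [hb]) (by simp [he])
    (by rw [e0]; simp only [List.map_map]; rfl)
    (by rw [← List.map_append, e0]; exact ho.map' h2.mono)
    (fun z hz => by
      obtain ⟨w, hw, rfl⟩ := List.mem_map.1 hz
      exact h2.valid (vb w hw))
    (fun z hz => by
      obtain ⟨w, -, rfl⟩ := List.mem_map.1 hz
      exact Nat.zero_le _)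
    (fun z hz => by
      obtain ⟨w, hw, rfl⟩ := List.mem_map.1 hz
      rcases List.mem_cons.1 hw with rfl | hw
      exacts [h2.valid vy, h2.valid (ve w hw)])
  rw [← List.map_append, List.map_map] at h3
  refine h3.trans ?_
  simp only [tau, Nat.unpair_pair, encodek, Option.getD_some, List.map_cons]

end IndF

open IndF in
theorem all_ind (h : S_tl) : S_ind := by
  intro I k hI hW hT X hX H g hH hg hm
  suffices ∀ j n, j + n = k → ∃ σ μ, Sub σ μ ∧ In I σ ∧ Ind H g j n σ μ from this k 0 rfl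
  intro j
  induction j with
  | zero =>
    refine fun n _ => ⟨_, _, Sub.id, ⟨X, hX, CI.id⟩, fun p a b b' e _ hb _ hbb _ _ _ _ => ?_⟩
    obtain rfl := List.length_eq_zero_iff.1 hb
    obtain rfl := List.map_eq_nil_iff.1 hbb.symm
    rfl
  | succ j ih =>
    intro n hn
    obtain ⟨s1, m1, h1, h2, h3⟩ := ih (n + 1) (by omega)
    obtain ⟨Z, hZ, h4, h5⟩ := h2.above hI hX
    have hH' : CI Z H := hH.mono h4
    have hg' : CI Z g := hg.mono h4
    have hm1 : CI Z m1 := h1.ci h5
    have hd : CI Z fun x : ℕ × (ℕ × ℕ) × List ℕ =>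
        (decode (α := List (ℕ × ℕ)) x.1.unpair.2).getD [] := ci_decode [] (by fun_prop)
    have hr : CI Z fun P : ℕ => encode (List.replicate n (P, P)) := ci_replicate n (by fun_prop)
    obtain ⟨s2, m2, h6, h7, h8⟩ := h I j hI hW (fun i hi => hT i (by omega)) Z hZ (tau H s1)
      (bd g m1 n) (by unfold tau; fun_prop) (by unfold bd; fun_prop) (bd_mono hm h1.mono n)
    refine ⟨_, _, h1.comp h6, In.comp hI h2 h7, fun p a b b' e ha hb he hbb ho vb vb' ve => ?_⟩
    obtain rfl | ⟨b0, y, rfl⟩ := List.eq_nil_or_concat b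
    · simp at hb
    obtain rfl | ⟨b1, y1, rfl⟩ := List.eq_nil_or_concat b'
    · simp at hbb
    simp only [List.concat_eq_append] at *
    have hbb' : b0.map Prod.fst = b1.map Prod.fst ∧ y.1 = y1.1 := by
      simpa only [List.map_append, List.map_cons, List.map_nil, List.append_left_inj,
        List.append_singleton_inj] using hbb
    have l0 : b0.length = j := by simpa using hb
    have l1 : b1.length = j := by simpa [l0] using (congrArg List.length hbb'.1).symm
    rw [List.append_assoc, List.singleton_append] at ho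
    have ho' : Ok p ((b1 ++ y1 :: e).map Prod.fst) := by
      simpa only [List.map_append, List.map_cons, hbb'.1, hbb'.2] using ho
    rw [List.append_assoc, List.append_assoc, List.singleton_append, List.singleton_append,
      to_tau h3 h6 ha l0 he ho (fun z hz => vb z (by simp [hz])) (vb y (by simp)) ve,
      to_tau h3 h6 ha l1 he ho' (fun z hz => vb' z (by simp [hz])) (vb' y1 (by simp)) ve,
      ← hbb'.1]
    obtain ⟨o1, o2⟩ := ho
    rw [List.map_append, List.map_cons, List.pairwise_append, List.pairwise_cons] at o1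
    have hp : p < y.1 := o2 _ (by simp)
    have e1 : y1 = (y.1, y1.2) := Prod.ext hbb'.2.symm rfl
    rw [e1]
    refine h8 (y.1 - 1) y.1 _ y.2 y1.2 _ (by omega) (Nat.lt_succ_of_le (pair_mono
      (ha.le.trans (hm (h1.mono.monotone (h6.mono.monotone (by omega)))))
      (encode_le _ _ _ (by simp [he]) fun x hx => ?_))) (vb y (by simp))
      (hbb'.2 ▸ vb' y1 (by simp)) (by simp [l0]) ⟨o1.1, fun x hx => o1.2.2 x hx _ (by simp)⟩
    obtain ⟨z, hz, rfl⟩ := List.mem_map.1 hx
    have h9 : m2 z.1 ≤ m2 (y.1 - 1) := h6.mono.monotone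
      (Nat.le_sub_one_of_lt (o1.2.1.1 _ (List.mem_map_of_mem hz)))
    exact pair_mono ((h6.fst z).le.trans h9) ((h6.le z (ve z hz)).trans h9)

end Pool.Agent.P.MP_9014a2_lc.TF
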