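import Pool.Agent.P.MP_9014a2_lc.W.Iface

/-! The free set. -/

namespace Pool.Agent.P.MP_9014a2_lc.TF

open Pool.Agent.Lib.Helper43 Encodable Filter

namespace Main

/-- the number of a point -/
def nb (y : ℕ × ℕ) : ℕ := Nat.pair y.1 y.2

/-- an even selector names an entry of `Y`, an odd selector names a number -/
def ev (Y : List (ℕ × ℕ)) (e : ℕ) : ℕ := if e % 2 = 0 then nb (Y.getD (e / 2) (0, 0)) else e / 2

/-- the selected value is the value of `F` at the selected arguments -/
def hh (F : List ℕ → ℕ) (p : ℕ × List (ℕ × ℕ)) : Bool :=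
  decide (F (((decode (α := List ℕ) p.1).getD []).tail.map (ev p.2)) =
    ev p.2 (((decode (α := List ℕ) p.1).getD []).getD 0 0))

variable {α : Type} [Primcodable α] {X : ℕ → Bool}

@[fun_prop] theorem ci_nb {f : α → ℕ × ℕ} (hf : CI X f) : CI X fun a => nb (f a) := by
  unfold nb
  fun_prop

@[fun_prop] theorem ci_ev {Y : α → List (ℕ × ℕ)} {e : α → ℕ} (hY : CI X Y) (he : CI X e) :
    CI X fun a => ev (Y a) (e a) := by
  unfold ev
  fun_prop

theorem ci_hh {F : List ℕ → ℕ} (hF : CI X F) : CI X (hh F) := by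
  unfold hh
  have := ci_decode (X := X) ([] : List ℕ) (f := fun p : ℕ × List (ℕ × ℕ) => p.1) (by fun_prop)
  fun_prop

theorem hh_iff (F : List ℕ → ℕ) (w : ℕ) (s : List ℕ) (Y : List (ℕ × ℕ)) :
    hh F (encode (w :: s), Y) = true ↔ F (s.map (ev Y)) = ev Y w := by
  simp only [hh, encodek, Option.getD_some, List.tail_cons, List.getD_cons_zero, decide_eq_true_eq]

theorem ev_odd (Y : List (ℕ × ℕ)) (v : ℕ) : ev Y (2 * v + 1) = v := by
  rw [ev, if_neg (by omega)]
  omega

theorem ev_even (Y : List (ℕ × ℕ)) (i : ℕ) : ev Y (2 * i) = nb (Y.getD i (0, 0)) := by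
  rw [ev, if_pos (by omega), Nat.mul_div_cancel_left _ two_pos]

theorem ev_idx (φ : ℕ → ℕ × ℕ) (σ : ℕ × ℕ → ℕ × ℕ) (T : List (ℕ × ℕ)) {L : List ℕ} {x : ℕ}
    (hx : x ∈ L) : ev ((L.map φ ++ T).map σ) (2 * L.idxOf x) = nb (σ (φ x)) := by
  have h := List.idxOf_lt_length_of_mem hx
  rw [ev_even, List.getD_eq_getElem _ _ (by simp; omega), List.getElem_map,
    List.getElem_append_left (by simpa using h), List.getElem_map, List.getElem_idxOf]

theorem ev_last (σ : ℕ × ℕ → ℕ × ℕ) (B : List (ℕ × ℕ)) (y : ℕ × ℕ) :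
    ev ((B ++ [y]).map σ) (2 * B.length) = nb (σ y) := by
  rw [ev_even, List.getD_eq_getElem _ _ (by simp)]
  simp

theorem ext (J : Finset ℕ) (n i : ℕ) (hn : J.card ≤ n) (hi : ∀ x ∈ J, i < x) :
    ∃ L : List ℕ, L.length = n ∧ Ok i L ∧ ∀ x ∈ J, x ∈ L := by
  obtain ⟨u, h1, h2, h3⟩ := Finset.exists_subsuperset_card_eq (s := J)
    (t := J ∪ Finset.Ioc i (i + n)) Finset.subset_union_left hn
    (le_trans (by simp) (Finset.card_le_card Finset.subset_union_right))
  refine ⟨u.sort (· ≥ ·), by simp [h3], ⟨?_, fun x hx => ?_⟩, fun x hx => by simpa using h1 hx⟩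
  · exact ((u.pairwise_sort (· ≥ ·)).and (u.sort_nodup _)).imp fun h => lt_of_le_of_ne h.1 h.2.symm
  · rcases Finset.mem_union.1 (h2 ((Finset.mem_sort _).1 hx)) with h | h
    · exact hi x h
    · exact (Finset.mem_Ioc.1 h).1

theorem nb_le {σ μ} (h : Sub σ μ) {y : ℕ × ℕ} (hy : y.2 ≤ y.1) {p : ℕ} (hp : y.1 ≤ p) :
    nb (σ y) ≤ Nat.pair (μ p) (μ p) :=
  pair_mono (h.fst y ▸ h.mono.monotone hp) ((h.le y hy).trans (h.mono.monotone hp))

theorem le_nb {σ μ} (h : Sub σ μ) (y : ℕ × ℕ) : y.1 ≤ nb (σ y) :=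
  (h.mono.id_le y.1).trans (h.fst y ▸ Nat.left_le_pair _ _)

theorem nb_inj {σ μ} (h : Sub σ μ) {i c i' c' : ℕ} (hc : c ≤ i) (hc' : c' ≤ i')
    (e : nb (σ (i, c)) = nb (σ (i', c'))) : i = i' ∧ c = c' := by
  obtain ⟨e1, e2⟩ := Nat.pair_eq_pair.1 e
  obtain rfl : i = i' := h.mono.injective ((h.fst (i, c)).symm.trans (e1.trans (h.fst (i', c'))))
  exact ⟨rfl, h.inj i c c' hc hc' (Prod.ext e1 e2)⟩

end Main

open Main

theorem all_main (hind : S_ind) (hthm : S_thm) : S_main := by
  classical
  intro I k hI hW hk hT X hX F hF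
  obtain ⟨σ, μ, hs, h1, hind⟩ := hind I k hI hW hT X hX (hh F)
    (fun P => encode (List.replicate (k + 1) (2 * (Nat.pair P P + k) + 1)) + 1) (ci_hh hF)
    (by
      have := ci_replicate (X := X) (k + 1) (f := fun P : ℕ => 2 * (Nat.pair P P + k) + 1)
        (by fun_prop)
      fun_prop)
    fun P Q h => Nat.succ_le_succ (encode_le _ _ _ (by simp) fun x hx => by
      have := pair_mono h h
      rw [List.eq_of_mem_replicate hx, encode_nat, encode_nat]
      omega)
  obtain ⟨Z, hZ, hXZ, hσ⟩ := h1.above hI hX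
  have hF' := hF.mono hXZ
  obtain ⟨cl, hcl, ecl⟩ := Sig.choose (X := Z) (r := fun v c : ℕ =>
      (∃ p < v + 1, c ≤ p ∧ nb (σ (p, c)) = v) ∨ ∀ p < v + 1, ∀ c' < p + 1, nb (σ (p, c')) ≠ v)
    (Sig.of_di (DI.or (DI.exLt (by fun_prop) (by fun_prop))
      (DI.allLt (DI.allLt (by fun_prop) (by fun_prop)) (by fun_prop)))) fun v => by
      by_cases h : ∀ p < v + 1, ∀ c' < p + 1, nb (σ (p, c')) ≠ v
      · exact ⟨0, Or.inr h⟩
      · push Not at h
        obtain ⟨p, h1, c, h2, h3⟩ := h
        exact ⟨c, Or.inl ⟨p, h1, by omega, h3⟩⟩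
  have hcol : ∀ p c, c ≤ p → cl (nb (σ (p, c))) = c := fun p c hc =>
    (ecl _).elim (fun ⟨_, _, h2, h3⟩ => (nb_inj hs h2 hc h3).2) fun h =>
      absurd rfl (h p (Nat.lt_succ_of_le (le_nb hs (p, c))) c (Nat.lt_succ_of_le hc))
  obtain ⟨lam, l1, l2, c, hc⟩ := hthm I k (encode (List.replicate k (2 * k)) + 1) hI (hT k le_rfl)
    (fun p => cl (F (((decode (α := List ℕ) p.1).getD []).map
      (ev ((p.2.map fun i => (i, 0)).map σ))))) ⟨Z, hZ, by
      have := ci_decode (X := Z) ([] : List ℕ) (f := fun p : ℕ × List ℕ => p.1) (by fun_prop)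
      fun_prop⟩
  obtain ⟨Y, hY, hZY, l3⟩ := l2.above hI hZ
  have hσ' := hσ.mono hZY
  let el : ℕ → ℕ := fun i => nb (σ (lam i, c))
  have hv : ∀ i, c < i → c + 1 ≤ lam i := fun i hi => hi.trans_le (l1.id_le i)
  let A : ℕ → Bool := fun v => decide (∃ i < v + 1, c < i ∧ el i = v)
  have hA : ∀ v, A v = true ↔ ∃ i, c < i ∧ el i = v := fun v => by
    rw [decide_eq_true_eq]
    exact ⟨fun ⟨i, _, h⟩ => ⟨i, h⟩, fun ⟨i, h1, h2⟩ =>
      ⟨i, Nat.lt_succ_of_le (h2 ▸ (l1.id_le i).trans (le_nb hs (lam i, c))), h1, h2⟩⟩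
  refine ⟨A, mem_of_red hI hY (CI.decide (DI.exLt (by simp only [el]; fun_prop) (by fun_prop))),
    ?_, fun l hl hin hval => ?_⟩
  · refine Set.infinite_of_forall_exists_gt fun n => ⟨el (n + c + 1), (hA _).2 ⟨_, by omega, rfl⟩, ?_⟩
    exact lt_of_lt_of_le (show n < n + c + 1 by omega)
      ((l1.id_le (n + c + 1)).trans (le_nb hs (lam _, c)))
  obtain ⟨J, rfl, hJ⟩ : ∃ J : List ℕ, l = J.map el ∧ ∀ i ∈ J, c < i := by
    clear hl hval
    induction l with
    | nil => exact ⟨[], rfl, by simp⟩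
    | cons x l ih =>
      obtain ⟨J, rfl, hJ⟩ := ih fun y hy => hin y (List.mem_cons_of_mem _ hy)
      obtain ⟨i, h1, rfl⟩ := (hA x).1 (hin x List.mem_cons_self)
      exact ⟨i :: J, rfl, by simpa using ⟨h1, hJ⟩⟩
  obtain ⟨i0, hi0, e0⟩ := (hA _).1 hval
  rw [List.length_map] at hl
  by_contra hne
  have hi : i0 ∉ J := fun h => hne (e0 ▸ List.mem_map_of_mem h)
  have hJc := (List.toFinset_card_le J).trans hl
  by_cases hcase : ∀ x ∈ J, i0 < x
  · obtain ⟨L, L1, L2, L3⟩ := ext J.toFinset k i0 hJc (by simpa using hcase)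
    have hL : ∀ x ∈ J, x ∈ L := by simpa using L3
    have hidx : ∀ e ∈ J.map fun x => 2 * L.idxOf x, e ≤ 2 * k := fun e he => by
      obtain ⟨x, hx, rfl⟩ := List.mem_map.1 he
      have := List.idxOf_lt_length_of_mem (hL x hx)
      omega
    have hval : ∀ d ≤ c, ∀ y ∈ L.map fun i => (lam i, d), y.2 ≤ y.1 := fun d hd y hy => by
      obtain ⟨x, hx, rfl⟩ := List.mem_map.1 hy
      have := hv x (hi0.trans (L2.2 x hx))
      simp only
      omega
    have h2 := hind (lam i0) (encode ((2 * el i0 + 1) :: J.map fun x => 2 * L.idxOf x))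
      (L.map fun i => (lam i, c)) (L.map fun i => (lam i, 0)) []
      (Nat.lt_succ_of_le (encode_le _ _ _ (by simpa using hl) fun e he => by
        rw [encode_nat, encode_nat]
        rcases List.mem_cons.1 he with rfl | he
        · have := nb_le hs (y := (lam i0, c)) (by have := hv i0 hi0; simp only; omega)
            (p := lam i0) le_rfl
          simp only [el]
          omega
        · have := hidx e he
          omega)) (by simpa using L1) rfl (by simp [Function.comp_def])
      (by simpa [Function.comp_def] using L2.map' l1) (hval c le_rfl) (hval 0 (Nat.zero_le c))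
      (by simp)
    have h3 := (hh_iff ..).1 (h2 ▸ (hh_iff ..).2 (by
      rw [ev_odd, e0, List.map_map]
      exact congrArg F (List.map_congr_left fun x hx => ev_idx _ σ [] (hL x hx))))
    refine hc (encode (J.map fun x => 2 * L.idxOf x))
      (Nat.lt_succ_of_le (encode_le _ _ _ (by simpa using hl) hidx)) L L1 L2.1 ?_
    rw [ev_odd, List.append_nil] at h3
    simp only [encodek, Option.getD_some]
    rw [List.map_map (l := L) (f := lam)]
    exact (congrArg cl h3).trans (hcol _ _ (by have := hv i0 hi0; omega))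
  · push Not at hcase
    obtain ⟨x0, hx0, hx1⟩ := hcase
    obtain ⟨L, L1, L2, L3⟩ := ext (J.toFinset.filter fun x => i0 < x) (k - 1) i0 (by
      have : (J.toFinset.filter fun x => i0 < x).card < J.toFinset.card :=
        Finset.card_lt_card ⟨Finset.filter_subset _ _, fun h => by
          have := (Finset.mem_filter.1 (h (List.mem_toFinset.2 hx0))).2
          omega⟩
      omega) fun x hx => (Finset.mem_filter.1 hx).2
    have hL : ∀ x ∈ J, i0 < x → x ∈ L := fun x hx h =>
      L3 x (Finset.mem_filter.2 ⟨List.mem_toFinset.2 hx, h⟩)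
    have h0 := hv i0 hi0
    have hval : ∀ d ≤ c + 1, ∀ y ∈ (L.map fun i => (lam i, c)) ++ [(lam i0, d)], y.2 ≤ y.1 := by
      intro d hd y hy
      rcases List.mem_append.1 hy with hy | hy
      · obtain ⟨x, hx, rfl⟩ := List.mem_map.1 hy
        have := hv x (hi0.trans (L2.2 x hx))
        simp only
        omega
      · rw [List.mem_singleton.1 hy]
        simp only
        omega
    have hsel : ∀ d, (J.map fun x => if i0 < x then 2 * L.idxOf x else 2 * el x + 1).map
        (ev (((L.map fun i => (lam i, c)) ++ [(lam i0, d)] ++ []).map σ)) = J.map el := fun d => by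
      rw [List.map_map, List.append_nil]
      refine List.map_congr_left fun x hx => ?_
      simp only [Function.comp]
      split_ifs with h
      · exact ev_idx _ σ _ (hL x hx h)
      · exact ev_odd _ _
    have hlast : ∀ d, ev (((L.map fun i => (lam i, c)) ++ [(lam i0, d)] ++ []).map σ)
        (2 * (k - 1)) = nb (σ (lam i0, d)) := fun d => by
      rw [List.append_nil, ← L1, ← List.length_map (f := fun i => (lam i, c)), ev_last]
    have h2 := hind (lam i0 - 1) (encode ((2 * (k - 1)) ::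
        J.map fun x => if i0 < x then 2 * L.idxOf x else 2 * el x + 1))
      ((L.map fun i => (lam i, c)) ++ [(lam i0, c)])
      ((L.map fun i => (lam i, c)) ++ [(lam i0, c + 1)]) []
      (Nat.lt_succ_of_le (encode_le _ _ _ (by simpa using hl) fun e he => by
        rw [encode_nat, encode_nat]
        rcases List.mem_cons.1 he with rfl | he
        · omega
        · obtain ⟨x, hx, rfl⟩ := List.mem_map.1 he
          split_ifs with h
          · have := List.idxOf_lt_length_of_mem (hL x hx h)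
            omega
          · have h3 : x < i0 := lt_of_le_of_ne (not_lt.1 h) fun e => hi (e ▸ hx)
            have h4 := l1 h3
            have := nb_le hs (y := (lam x, c)) (by have := hv x (hJ x hx); simp only; omega)
              (p := lam i0 - 1) (by simp only; omega)
            simp only [el]
            omega)) (by simp [L1]; omega) rfl (by simp) (by
        have h3 := L2.map' l1
        simp only [List.append_nil, List.map_append, List.map_map, Function.comp_def,
          List.map_cons, List.map_nil]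
        refine ⟨List.pairwise_append.2 ⟨h3.1, by simp, fun a ha b hb => ?_⟩, fun a ha => ?_⟩
        · rw [List.mem_singleton.1 hb]
          exact h3.2 a ha
        · rcases List.mem_append.1 ha with ha | ha
          · have := h3.2 a ha
            omega
          · rw [List.mem_singleton.1 ha]
            omega) (hval c (Nat.le_succ c)) (hval _ le_rfl) (by simp)
    have h3 := (hh_iff ..).1 (h2 ▸ (hh_iff ..).2 (by rw [hsel, hlast, ← e0]))
    rw [hsel, hlast, ← e0] at h3
    have := (nb_inj hs (by omega) h0 h3).2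
    omega

end Pool.Agent.P.MP_9014a2_lc.TF
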