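import Pool.Agent.P.MP_9014a2_lc.W.Iface

/-! One compression step and its iteration. -/

namespace Pool.Agent.P.MP_9014a2_lc.TF

open Pool.Agent.Lib.Helper43 Encodable Filter

namespace Oc

open Classical in
/-- number of values that appear before the first appearance of the value at time `l` -/
noncomputable def idx (U : ℕ × List ℕ → ℕ) (m : ℕ) (π : List ℕ) (l : ℕ) : ℕ :=
  (((Finset.range l).filter fun t => Ok m (t :: π) ∧
    ∀ t' < t + 1, Ok m (t' :: π) → U (m, t' :: π) ≠ U (m, l :: π)).image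
      fun t => U (m, t :: π)).card

variable {U : ℕ × List ℕ → ℕ} {m : ℕ} {π : List ℕ} {l l' : ℕ} {Y : ℕ → Bool}

theorem ci_idx (hU : CI Y U) :
    CI Y fun x : ℕ × List ℕ × ℕ => idx U x.1 x.2.1 x.2.2 := by
  unfold idx
  refine CI.cardF (CI.imageF (by fun_prop) (CI.filterF (DI.and (by fun_prop)
    (DI.allLt (DI.imp (by fun_prop) (by fun_prop)) (by fun_prop))) (by fun_prop)))

theorem idx_lt {S : Finset ℕ} (hS : ∀ t, Ok m (t :: π) → U (m, t :: π) ∈ S) (hl : Ok m (l :: π)) :
    idx U m π l < S.card := by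
  classical
  refine Finset.card_lt_card ⟨fun v hv => ?_, fun h => ?_⟩
  · obtain ⟨t, ht, rfl⟩ := Finset.mem_image.1 hv
    exact hS t (Finset.mem_filter.1 ht).2.1
  · obtain ⟨t, ht, e⟩ := Finset.mem_image.1 (h (hS l hl))
    exact (Finset.mem_filter.1 ht).2.2 t (Nat.lt_succ_self t) (Finset.mem_filter.1 ht).2.1 e

theorem idx_lt_idx (hl' : Ok m (l' :: π)) {t : ℕ} (ht : Ok m (t :: π))
    (e : U (m, t :: π) = U (m, l :: π))
    (h : ∀ t' < t + 1, Ok m (t' :: π) → U (m, t' :: π) ≠ U (m, l' :: π)) :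
    idx U m π l < idx U m π l' := by
  classical
  have htl : t < l' := by
    by_contra hc
    exact h l' (by omega) hl' rfl
  refine Finset.card_lt_card ⟨Finset.image_subset_image fun s hs => ?_, fun h' => ?_⟩
  · rw [Finset.mem_filter, Finset.mem_range] at hs ⊢
    have hst : s < t := by
      by_contra hc
      exact hs.2.2 t (by omega) ht e
    exact ⟨by omega, hs.2.1, fun t' ht' => h t' (by omega)⟩
  · obtain ⟨s, hs, e'⟩ := Finset.mem_image.1 (h' (Finset.mem_image.2
      ⟨t, Finset.mem_filter.2 ⟨Finset.mem_range.2 htl, ht, h⟩, rfl⟩))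
    rw [Finset.mem_filter] at hs
    exact hs.2.2 s (Nat.lt_succ_self s) hs.2.1 (e'.trans e)

theorem idx_inj (hl : Ok m (l :: π)) (hl' : Ok m (l' :: π)) (h : idx U m π l = idx U m π l') :
    U (m, l :: π) = U (m, l' :: π) := by
  classical
  by_contra hne
  have ex : ∃ t, Ok m (t :: π) ∧
      (U (m, t :: π) = U (m, l :: π) ∨ U (m, t :: π) = U (m, l' :: π)) := ⟨l, hl, Or.inl rfl⟩
  obtain ⟨ht, e⟩ := Nat.find_spec ex
  have hmin := fun t' (h : t' < Nat.find ex) => Nat.find_min ex h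
  rcases e with e | e
  · refine (idx_lt_idx hl' ht e fun t' h1 h2 h3 => ?_).ne h
    rcases Nat.lt_succ_iff_lt_or_eq.1 h1 with h1 | rfl
    · exact hmin t' h1 ⟨h2, Or.inr h3⟩
    · exact hne (e.symm.trans h3)
  · refine (idx_lt_idx hl ht e fun t' h1 h2 h3 => ?_).ne' h
    rcases Nat.lt_succ_iff_lt_or_eq.1 h1 with h1 | rfl
    · exact hmin t' h1 ⟨h2, Or.inl h3⟩
    · exact hne (h3.symm.trans e)

theorem ex_diff (U : ℕ × List ℕ → ℕ) (x : List ℕ × ℕ × ℕ) :
    ∃ d, U (d, x.2.1 :: x.1) ≠ U (d, x.2.2 :: x.1) ∨ d = x.2.1 := ⟨x.2.1, Or.inr rfl⟩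

end Oc

open Oc

theorem all_oc (hR : S_R) : S_oc := by
  classical
  intro I φ r hT X hX U E D V hU hD hV hE hP hF
  obtain ⟨R, hRc, hRs⟩ := hR (φ X)
  let df : List ℕ × ℕ × ℕ → ℕ := fun x => Nat.find (ex_diff U x)
  have hdf : CI (φ X) df := CI.find (by fun_prop) _
  let cl : ℕ × List ℕ × ℕ × ℕ → ℕ := fun x => R ((D x.1, V x.1),
    min (idx U x.1 x.2.1 x.2.2.1) (idx U x.1 x.2.1 x.2.2.2),
    max (idx U x.1 x.2.1 x.2.2.1) (idx U x.1 x.2.1 x.2.2.2))
  have hcl : CI (φ X) cl := by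
    have h1 := (ci_idx hU).comp (g := fun x : ℕ × List ℕ × ℕ × ℕ => (x.1, x.2.1, x.2.2.1))
      (by fun_prop)
    have h2 := (ci_idx hU).comp (g := fun x : ℕ × List ℕ × ℕ × ℕ => (x.1, x.2.1, x.2.2.2))
      (by fun_prop)
    have h3 : CI (φ X) fun p : ℕ × ℕ => (min p.1 p.2, max p.1 p.2) :=
      CI.of_comp (Primrec.pair Primrec.nat_min Primrec.nat_max).to_comp
    exact hRc.comp (CI.prodMk (by fun_prop) (h3.comp (h1.prodMk h2)))
  have hsp : CI (φ X) fun L : List ℕ => (L.drop 2, L.getD 0 0, L.getD 1 0) := by fun_prop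
  obtain ⟨lam, hl, hI, c, hc⟩ := hT X hX
    (fun L => cl (df (L.drop 2, L.getD 0 0, L.getD 1 0), L.drop 2, L.getD 0 0, L.getD 1 0))
    (hcl.comp ((hdf.comp hsp).prodMk hsp))
  refine ⟨lam, hl, hI, ?_⟩
  filter_upwards [hF, eventually_ge_atTop c] with m hm hcm π hπ
  obtain ⟨S0, hS0, hS⟩ := hm (π.map lam) (by simpa using hπ)
  let S := S0.filter fun v => ∃ l, Ok m (l :: π) ∧ U (m, lam l :: π.map lam) = v
  refine ⟨S, ?_, fun l h => Finset.mem_filter.2 ⟨hS _ (h.map hl), l, h, rfl⟩⟩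
  have hch : ∀ v, ∃ l, v ∈ S → Ok m (l :: π) ∧ U (m, lam l :: π.map lam) = v := fun v => by
    by_cases h : v ∈ S
    · obtain ⟨l, h⟩ := (Finset.mem_filter.1 h).2
      exact ⟨l, fun _ => h⟩
    · exact ⟨0, fun h' => absurd h' h⟩
  choose tm htm using hch
  have hok : ∀ v ∈ S, Ok m (lam (tm v) :: π.map lam) := fun v hv => (htm v hv).1.map hl
  -- a pair of values in the same group does not have colour `c`
  have key : ∀ v ∈ S, ∀ w ∈ S, tm w < tm v →
      (∀ i < m, U (i, lam (tm v) :: π.map lam) = U (i, lam (tm w) :: π.map lam)) →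
      cl (m, π.map lam, lam (tm v), lam (tm w)) ≠ c := by
    intro v hv w hw hlt hseg
    have h1 := hc (tm v :: tm w :: π) (by simp [hπ]) (List.pairwise_cons.2 ⟨fun x hx => by
      rcases List.mem_cons.1 hx with rfl | hx
      · exact hlt
      · exact ((List.pairwise_cons.1 (htm w hw).1.1).1 x hx).trans hlt, (htm w hw).1.1⟩)
    have h2 : df (π.map lam, lam (tm v), lam (tm w)) = m := by
      refine (Nat.find_eq_iff _).2 ⟨Or.inl ?_, fun i hi h => h.elim (fun h => h (hseg i hi))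
        fun h => ?_⟩
      · simp only [(htm v hv).2, (htm w hw).2]
        rintro rfl
        exact hlt.ne rfl
      · have := (hok v hv).2 _ List.mem_cons_self
        simp only at h
        omega
    simpa [h2] using h1
  have hcard : (Fintype.piFinset fun i : Fin m => Finset.range (E i)).card ≤ D m := by
    rw [Fintype.card_piFinset]
    simp only [Finset.card_range]
    rw [Fin.prod_univ_eq_prod_range]
    exact (hP m).2
  refine (Finset.card_le_mul_card_image_of_maps_to
    (f := fun v (i : Fin m) => U (i, lam (tm v) :: π.map lam))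
    (t := Fintype.piFinset fun i : Fin m => Finset.range (E i))
    (fun v _ => Fintype.mem_piFinset.2 fun i => Finset.mem_range.2 (hE _))
    (tt (D m) (V m)) fun g _ => ?_).trans ?_
  swap
  · rw [st, mul_comm]
    exact Nat.mul_le_mul_right _ hcard
  by_contra hbig
  set T := S.filter fun v => (fun i : Fin m => U (i, lam (tm v) :: π.map lam)) = g with hT
  have hTS : ∀ v ∈ T, v ∈ S := fun v hv => (Finset.mem_filter.1 hv).1
  have hinj : Set.InjOn (fun v => idx U m (π.map lam) (lam (tm v))) T := fun v hv w hw e => by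
    have := idx_inj (hok v (hTS v hv)) (hok w (hTS w hw)) e
    rwa [(htm v (hTS v hv)).2, (htm w (hTS w hw)).2] at this
  obtain ⟨a, ha, b, hb, hab, e⟩ := hRs (D m) (V m) c (hcm.trans_lt (hP m).1)
    (T.image fun v => idx U m (π.map lam) (lam (tm v))) (fun a ha => by
      obtain ⟨v, hv, rfl⟩ := Finset.mem_image.1 ha
      exact Finset.mem_range.2 ((idx_lt hS (hok v (hTS v hv))).trans_le hS0))
    (by rw [Finset.card_image_of_injOn hinj]; omega)
  obtain ⟨v, hv, rfl⟩ := Finset.mem_image.1 ha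
  obtain ⟨w, hw, rfl⟩ := Finset.mem_image.1 hb
  have hseg : ∀ i < m, U (i, lam (tm v) :: π.map lam) = U (i, lam (tm w) :: π.map lam) :=
    fun i hi => congrFun ((Finset.mem_filter.1 hv).2.trans (Finset.mem_filter.1 hw).2.symm) ⟨i, hi⟩
  rcases lt_trichotomy (tm v) (tm w) with h | h | h
  · refine key w (hTS w hw) v (hTS v hv) h (fun i hi => (hseg i hi).symm) ?_
    simp only [cl, min_eq_right hab.le, max_eq_left hab.le, e]
  · rw [h] at hab
    exact hab.false
  · refine key v (hTS v hv) w (hTS w hw) h hseg ?_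
    simp only [cl, min_eq_left hab.le, max_eq_right hab.le, e]

theorem all_ocn (h : S_oc) : S_ocn := by
  intro I φ r n hI hm hi hT X hX U E D hU hD hE hlt hP
  induction n with
  | zero =>
    exact ⟨fun i => i, strictMono_id, ⟨X, hX, CI.id⟩, Eventually.of_forall fun m π _ =>
      ⟨Finset.range (E m), by simp, fun l _ => Finset.mem_range.2 (hlt _)⟩⟩
  | succ n ih =>
    obtain ⟨lam, h1, h2, h3⟩ := ih
    obtain ⟨Z, hZ, h4, h5⟩ := h2.above hI hX
    have hU' := hU.mono (hm _ _ h4)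
    have hD' := hD.mono (hm _ _ h4)
    have h6 := h5.mono (hi Z)
    obtain ⟨lam', h7, h8, h9⟩ := h I φ r hT Z hZ (re lam U) E D _ (by unfold re; fun_prop) hD'
      (ci_stn n hD' (hE.mono (hm _ _ h4))) (fun p => hlt _) hP h3
    refine ⟨fun i => lam (lam' i), h1.comp h7, h2.comp hI h8, ?_⟩
    simp only [Function.iterate_succ_apply']
    have : re (fun i => lam (lam' i)) U = re lam' (re lam U) := by
      funext p
      simp only [re, List.map_map]
      rfl
    rwa [this]

end Pool.Agent.P.MP_9014a2_lc.TF
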