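import Pool.Agent.P.MP_9014a2_lc.W.Iface

/-! Colourings in which every large set sees every colour. -/

namespace Pool.Agent.P.MP_9014a2_lc.TF

open Pool.Agent.Lib.Helper43 Encodable Filter

namespace Rand

theorem bern (r n : ℕ) : r ^ n * (r + n + 1) ≤ (r + 1) ^ (n + 1) := by
  induction n with
  | zero => simp
  | succ n ih =>
    calc r ^ (n + 1) * (r + (n + 1) + 1) = r ^ n * (r * (r + n + 2)) := by ring
      _ ≤ r ^ n * ((r + n + 1) * (r + 1)) := Nat.mul_le_mul_left _ (by nlinarith)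
      _ = r ^ n * (r + n + 1) * (r + 1) := by ring
      _ ≤ (r + 1) ^ (n + 1) * (r + 1) := Nat.mul_le_mul_right _ ih
      _ = (r + 1) ^ (n + 1 + 1) := by ring

theorem half (r k : ℕ) : r ^ ((r + 1) * k) * 2 ^ k ≤ (r + 1) ^ ((r + 1) * k) := by
  rw [pow_mul, pow_mul, ← mul_pow]
  refine Nat.pow_le_pow_left (le_trans ?_ (bern r r)) k
  rw [pow_succ, mul_assoc]
  exact Nat.mul_le_mul_left _ (by omega)

/-- the colourings that omit the colour `c` on `S` -/
def bad {r V : ℕ} (c : Fin (r + 1)) (S : Finset (Fin V)) : Finset (Fin V × Fin V → Fin (r + 1)) :=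
  Fintype.piFinset fun p =>
    if p ∈ (S ×ˢ S).filter (fun p => p.1 < p.2) then Finset.univ.erase c else Finset.univ

theorem card_bad {r V : ℕ} (c : Fin (r + 1)) (S : Finset (Fin V)) :
    (bad c S).card * (r + 1) ^ S.card.choose 2 =
      r ^ S.card.choose 2 * Fintype.card (Fin V × Fin V → Fin (r + 1)) := by
  rw [← Finset.card_product_filter_lt, bad, Fintype.card_piFinset, Fintype.card_fun,
    Fintype.card_fin (r + 1)]
  generalize (S ×ˢ S).filter (fun p => p.1 < p.2) = D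
  have h1 : ∀ a : ℕ, a ^ D.card = ∏ p, if p ∈ D then a else 1 := fun a => by
    rw [Finset.prod_ite_mem, Finset.univ_inter, Finset.prod_const]
  rw [h1, h1, ← Finset.card_univ, ← Finset.prod_const, ← Finset.prod_mul_distrib,
    ← Finset.prod_mul_distrib]
  refine Finset.prod_congr rfl fun p _ => ?_
  split_ifs <;> simp

theorem exists_good (r V : ℕ) : ∃ χ : Fin V × Fin V → Fin (r + 1), ∀ c, ∀ S : Finset (Fin V),
    S.card = tt (r + 1) V → χ ∉ bad c S := by
  classical
  obtain ⟨t, ht⟩ : ∃ t, t = tt (r + 1) V := ⟨_, rfl⟩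
  obtain ⟨N, hN⟩ : ∃ N, N = Fintype.card (Fin V × Fin V → Fin (r + 1)) := ⟨_, rfl⟩
  have hN0 : 0 < N := hN ▸ Fintype.card_pos
  have hM : t.choose 2 = (r + 1) * (t * (V.size + 1)) := by
    rw [Nat.choose_two_right]
    refine Nat.div_eq_of_eq_mul_right two_pos ?_
    have : t - 1 = 2 * (r + 1) * (V.size + 1) := by rw [ht, tt, Nat.add_sub_cancel]
    rw [this]; ring
  have h1 : ∀ (c : Fin (r + 1)) (S : Finset (Fin V)), S.card = t →
      (bad c S).card * 2 ^ (t * (V.size + 1)) ≤ N := fun c S hS => by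
    have h := card_bad c S
    rw [hS, hM, ← hN] at h
    refine Nat.le_of_mul_le_mul_left (c := (r + 1) ^ ((r + 1) * (t * (V.size + 1)))) ?_
      (by positivity)
    calc _ = (bad c S).card * (r + 1) ^ ((r + 1) * (t * (V.size + 1))) *
          2 ^ (t * (V.size + 1)) := by ring
      _ = r ^ ((r + 1) * (t * (V.size + 1))) * 2 ^ (t * (V.size + 1)) * N := by rw [h]; ring
      _ ≤ _ := Nat.mul_le_mul_right _ (half _ _)
  let J : Finset (Fin (r + 1) × Finset (Fin V)) := Finset.univ ×ˢ Finset.powersetCard t Finset.univ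
  have h2 : J.card < 2 ^ (t * (V.size + 1)) := by
    have a1 : r + 1 < 2 ^ t := lt_trans (by rw [ht, tt]; nlinarith) t.lt_two_pow_self
    have a2 : V.choose t ≤ 2 ^ (t * V.size) := (Nat.choose_le_pow V t).trans (by
      rw [mul_comm, pow_mul]; exact Nat.pow_le_pow_left V.lt_size_self.le t)
    simp only [J, Finset.card_product, Finset.card_powersetCard, Finset.card_univ,
      Fintype.card_fin]
    rw [mul_add, mul_one, pow_add, mul_comm]
    exact (Nat.mul_le_mul_right _ a2).trans_lt (Nat.mul_lt_mul_of_pos_left a1 (by positivity))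
  have h3 : (J.biUnion fun x => bad x.1 x.2).card < N := by
    refine Nat.lt_of_mul_lt_mul_right (a := 2 ^ (t * (V.size + 1))) ?_
    calc _ ≤ (∑ x ∈ J, (bad x.1 x.2).card) * 2 ^ (t * (V.size + 1)) :=
          Nat.mul_le_mul_right _ Finset.card_biUnion_le
      _ ≤ J.card * N := by
          rw [Finset.sum_mul, ← smul_eq_mul]
          exact Finset.sum_le_card_nsmul _ _ _ fun x hx =>
            h1 _ _ (Finset.mem_powersetCard.1 (Finset.mem_product.1 hx).2).2
      _ < _ := by rw [mul_comm]; exact Nat.mul_lt_mul_of_pos_left h2 hN0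
  rw [hN, ← Finset.card_univ] at h3
  obtain ⟨χ, -, hχ⟩ := Finset.exists_mem_notMem_of_card_lt_card h3
  exact ⟨χ, fun c S hS hb => hχ (Finset.mem_biUnion.2 ⟨(c, S), Finset.mem_product.2
    ⟨Finset.mem_univ _, Finset.mem_powersetCard.2 ⟨Finset.subset_univ _, hS.trans ht.symm⟩⟩, hb⟩)⟩

end Rand

theorem all_rand : S_rand := by
  intro q V
  rcases q with _ | r
  · exact ⟨fun _ _ => 0, fun c hc => absurd hc (Nat.not_lt_zero c)⟩
  obtain ⟨χ, hχ⟩ := Rand.exists_good r V
  refine ⟨fun a b => if h : a < V ∧ b < V then χ (⟨a, h.1⟩, ⟨b, h.2⟩) else 0, fun c hc S hS ht => ?_⟩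
  obtain ⟨T, hT, hc'⟩ := Finset.exists_subset_card_eq ht
  have hV : ∀ a ∈ T, a < V := fun a ha => Finset.mem_range.1 (hS (hT ha))
  have := hχ ⟨c, hc⟩ (T.attachFin hV) (by rw [Finset.card_attachFin, hc'])
  rw [Rand.bad, Fintype.mem_piFinset, not_forall] at this
  obtain ⟨⟨a, b⟩, hp⟩ := this
  split_ifs at hp with h
  · simp only [Finset.mem_filter, Finset.mem_product, Finset.mem_attachFin] at h
    refine ⟨a, hT h.1.1, b, hT h.1.2, h.2, ?_⟩
    simp only [Finset.mem_erase, Finset.mem_univ, and_true, not_not] at hp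
    exact (dif_pos (And.intro a.2 b.2)).trans (congrArg Fin.val hp)
  · exact absurd (Finset.mem_univ _) hp

theorem all_R (h : S_rand) : S_R := by
  intro X
  obtain ⟨w, hw, e⟩ := Sig.choose (X := X) (r := fun (x : ℕ × ℕ) (w : List ℕ) => ∀ c < x.1,
      ∀ S ⊆ Finset.range x.2, tt x.1 x.2 ≤ S.card →
        ∃ a ∈ S, ∃ b ∈ S, a < b ∧ w.getD (Nat.pair a b) 0 = c)
    (Sig.of_di (by
      refine DI.allLt (DI.allSub (DI.imp (by fun_prop) (DI.exF (DI.exF ?_ ?_) ?_)) ?_) ?_ <;>
        fun_prop)) fun x => by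
      obtain ⟨χ, hχ⟩ := h x.1 x.2
      refine ⟨(List.range (Nat.pair x.2 x.2 + 1)).map fun n => χ n.unpair.1 n.unpair.2,
        fun c hc S hS ht => ?_⟩
      obtain ⟨a, ha, b, hb, hab, e⟩ := hχ c hc S hS ht
      have : Nat.pair a b < Nat.pair x.2 x.2 + 1 := Nat.lt_succ_of_le (pair_mono
        (Finset.mem_range.1 (hS ha)).le (Finset.mem_range.1 (hS hb)).le)
      refine ⟨a, ha, b, hb, hab, ?_⟩
      rw [List.getD_eq_getElem _ _ (by simpa using this)]
      simpa using e
  exact ⟨fun p => (w p.1).getD (Nat.pair p.2.1 p.2.2) 0, by fun_prop, fun q V => e (q, V)⟩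

end Pool.Agent.P.MP_9014a2_lc.TF
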