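import Pool.Agent.P.MP_9014a2_lc.W.Iface

/-! Twin columns. -/

namespace Pool.Agent.P.MP_9014a2_lc.TF

open Pool.Agent.Lib.Helper43 Encodable Filter

namespace Tl

/-- pigeonhole: many columns of the same type -/
theorem twins (S : Finset ℕ) (G D n W : ℕ) (hS : S.card ≤ W) (h : 2 ^ (W * G) * D < n) :
    ∃ T ⊆ Finset.range n, D < T.card ∧ ∀ u ∈ T, ∀ u' ∈ T, ∀ v ∈ S, ∀ a < G,
      u * G + a ∈ fd v → u' * G + a ∈ fd v := by
  obtain ⟨y, -, hy⟩ := Finset.exists_lt_card_fiber_of_mul_lt_card_of_maps_to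
    (s := Finset.range n) (t := (S ×ˢ Finset.range G).powerset) (n := D)
    (f := fun u => (S ×ˢ Finset.range G).filter fun p => u * G + p.2 ∈ fd p.1)
    (fun u _ => Finset.mem_powerset.2 (Finset.filter_subset _ _)) (by
      rw [Finset.card_powerset, Finset.card_product, Finset.card_range, Finset.card_range]
      exact (Nat.mul_le_mul_right _ (Nat.pow_le_pow_right two_pos
        (Nat.mul_le_mul_right _ hS))).trans_lt h)
  refine ⟨_, Finset.filter_subset _ _, hy, fun u hu u' hu' v hv a ha h1 => ?_⟩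
  have e := (Finset.mem_filter.1 hu).2.trans (Finset.mem_filter.1 hu').2.symm
  have h2 : (v, a) ∈ (S ×ˢ Finset.range G).filter fun p => u * G + p.2 ∈ fd p.1 :=
    Finset.mem_filter.2 ⟨Finset.mem_product.2 ⟨hv, Finset.mem_range.2 ha⟩, h1⟩
  rw [e] at h2
  exact (Finset.mem_filter.1 h2).2

theorem len_toL (T : Finset ℕ) : (toL T).length = T.card := by
  rw [← List.toFinset_card_of_nodup (nodup_toL _), toFinset_toL]

end Tl

open Tl

theorem all_tl (hcl : S_cl) (har : S_ar) (hch : S_ch) : S_tl := by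
  classical
  intro I j hI hW hT X hX τ g hτ hg hmono
  obtain ⟨R, hR, R0, hs⟩ := exists_path (X := X) (I := fun _ => True) (s0 := ((0, 1) : ℕ × ℕ))
    (r := fun s s' : ℕ × ℕ => s.1 < s'.1 ∧ s'.2 = s.2 * 2 ^ 2 ^ (s'.1 * g s.1) ∧
      2 ^ (((st s.2)^[4] (2 ^ 2 ^ (s'.1 * g s.1))) ^ j * g s.1) * s.2 < s'.1)
    (Sig.of_di (by
      have := ci_stn (X := X) 4 (f := fun x : (ℕ × ℕ) × ℕ × ℕ => x.1.2)
        (g := fun x => 2 ^ 2 ^ (x.2.1 * g x.1.1)) (by fun_prop) (by fun_prop)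
      fun_prop)) trivial (fun _ _ _ _ => trivial) fun s _ => by
      obtain ⟨n, h1, h2⟩ := har j (g s.1) s.2 s.1
      exact ⟨(n, s.2 * 2 ^ 2 ^ (n * g s.1)), h1, rfl, h2⟩
  let N : ℕ → ℕ := fun i => (R (i + 1)).1
  let G : ℕ → ℕ := fun i => g (R i).1
  have hN : CI X N := by fun_prop
  have hG : CI X G := by fun_prop
  have hR1 : StrictMono fun i => (R i).1 := strictMono_nat_of_lt_succ fun i => (hs i).1
  have hNm : StrictMono N := fun a b h => hR1 (Nat.succ_lt_succ h)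
  have hD : ∀ m, m < (R m).2 ∧ ∏ i ∈ Finset.range m, 2 ^ 2 ^ (N i * G i) ≤ (R m).2 := by
    intro m
    induction m with
    | zero => simp [R0]
    | succ m ih =>
      rw [(hs m).2.1, Finset.prod_range_succ]
      refine ⟨?_, Nat.mul_le_mul_right _ ih.2⟩
      have : 2 ≤ 2 ^ 2 ^ ((R (m + 1)).1 * g (R m).1) :=
        Nat.le_self_pow (Nat.two_pow_pos _).ne' 2
      nlinarith [ih.1]
  let a : ℕ × List ℕ → ℕ := fun p => fc ((Finset.range (N p.1 * G p.1)).filter fun x =>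
    τ (x % G p.1, (N p.1, x / G p.1), p.2.map N) = true)
  have ha : CI X a := (CI.of_comp computable_fc).comp (CI.filterF (by fun_prop) (by fun_prop))
  have hmem : ∀ i l u b, u < N i → b < G i →
      (u * G i + b ∈ fd (a (i, l)) ↔ τ (b, (N i, u), l.map N) = true) := by
    intro i l u b hu hb
    have h0 : 0 < G i := by omega
    simp only [a, fd_fc, Finset.mem_filter, Finset.mem_range]
    rw [Nat.mul_add_mod_of_lt hb, mul_comm u, Nat.mul_add_div h0, Nat.div_eq_of_lt hb, add_zero]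
    exact and_iff_right (by nlinarith)
  obtain ⟨lam, l1, l2, l3⟩ := hcl I j hI hT X hX a (fun i => 2 ^ (N i * G i)) (fun i => (R i).2)
    ha (by fun_prop) (by fun_prop) (fun p => fc_lt (Finset.filter_subset _ _)) hD
  obtain ⟨m0, l3⟩ := eventually_atTop.1 l3
  obtain ⟨Z, hZ, hXZ, l4⟩ := l2.above hI hX
  have hτ' := hτ.mono hXZ
  have hN' := hN.mono hXZ
  have hG' := hG.mono hXZ
  obtain ⟨e, e1, e2⟩ := hch I hI hW Z hZ (fun x => m0 ≤ x.1 ∧
    (¬ (fd x.2 ⊆ Finset.range (N x.1) ∧ x.1 < (fd x.2).card) ∨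
      ∃ y : List ℕ × ℕ × ℕ × ℕ, y.1.length = j ∧ Ok x.1 y.1 ∧ y.2.1 ∈ fd x.2 ∧ y.2.2.1 ∈ fd x.2 ∧
        y.2.2.2 < G x.1 ∧ τ (y.2.2.2, (N x.1, y.2.1), (y.1.map lam).map N) ≠
          τ (y.2.2.2, (N x.1, y.2.2.1), (y.1.map lam).map N))) (fun i => 2 ^ N i)
    (Sig.and (Sig.of_di (by fun_prop)) (Sig.or (Sig.of_di (by fun_prop))
      (Sig.ex (Sig.of_di (by fun_prop))))) (by fun_prop) fun i => by
      by_cases hi : m0 ≤ i
      swap
      · exact ⟨0, Nat.two_pow_pos _, fun h => hi h.1⟩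
      obtain ⟨S, s1, s2⟩ := l3 i hi
      obtain ⟨T, t1, t2, t3⟩ := twins S (G i) (R i).2 (N i) _ s1 (hs i).2.2
      refine ⟨fc T, fc_lt t1, fun h => h.2.elim (fun h => h ?_) ?_⟩
      · rw [fd_fc]
        exact ⟨t1, (hD i).1.trans t2⟩
      · rintro ⟨⟨ρ, u, u', b⟩, h1, h2, h3, h4, h5, h6⟩
        simp only [fd_fc] at h3 h4
        refine h6 (Bool.eq_iff_iff.2 ?_)
        rw [← hmem i _ u b (Finset.mem_range.1 (t1 h3)) h5,
          ← hmem i _ u' b (Finset.mem_range.1 (t1 h4)) h5]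
        exact ⟨t3 u h3 u' h4 _ (s2 ρ h1 h2) b h5, t3 u' h4 u h3 _ (s2 ρ h1 h2) b h5⟩
  obtain ⟨Y, hY, hZY, e3⟩ := e1.above hI hZ
  have l5 := l4.mono hZY
  have hN'' := hN'.mono hZY
  let ρ : ℕ → ℕ := fun r => @Nat.rec (fun _ => ℕ) m0 (fun _ ih => lam ih + 1) r
  have hρ : CI Y ρ := CI.natRec (h := fun _ _ ih => lam ih + 1) CI.id (CI.const _) (by fun_prop)
  have hρm : StrictMono ρ :=
    strictMono_nat_of_lt_succ fun r => Nat.lt_succ_of_le (l1.id_le (ρ r))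
  have hν : StrictMono fun r => lam (ρ r) := l1.comp hρm
  have hm0 : ∀ r, m0 ≤ lam (ρ r) := fun r => (hρm.monotone (Nat.zero_le r)).trans (l1.id_le _)
  have hgood : ∀ r, fd (e (lam (ρ r))) ⊆ Finset.range (N (lam (ρ r))) ∧
      lam (ρ r) < (fd (e (lam (ρ r)))).card := fun r => by
    by_contra h
    exact e2 _ ⟨hm0 r, Or.inl h⟩
  have hlen : ∀ r c, c ≤ r → c < (toL (fd (e (lam (ρ r))))).length := fun r c h => by
    rw [len_toL]
    exact (h.trans (hν.id_le r)).trans_lt (hgood r).2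
  have hin : ∀ r c, c ≤ r → (toL (fd (e (lam (ρ r))))).getD c 0 ∈ fd (e (lam (ρ r))) :=
    fun r c h => by
      rw [List.getD_eq_getElem _ _ (hlen r c h), ← mem_toL]
      exact List.getElem_mem _
  refine ⟨fun y => (N (lam (ρ y.1)), (toL (fd (e (lam (ρ y.1))))).getD y.2 0),
    fun i => N (lam (ρ i)), ⟨hNm.comp hν, fun _ => rfl, fun y hy => ?_, fun i c c' hc hc' h => ?_⟩,
    ⟨Y, hY, by fun_prop⟩, fun p m b c c' l hp hb hc hc' hl hok => ?_⟩
  · exact (Finset.mem_range.1 ((hgood y.1).1 (hin y.1 y.2 hy))).le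
  · have h' := (Prod.mk.inj h).2
    rw [List.getD_eq_getElem _ _ (hlen i c hc), List.getD_eq_getElem _ _ (hlen i c' hc')] at h'
    exact ((nodup_toL _).getElem_inj_iff).1 h'
  · by_contra hne
    refine e2 _ ⟨hm0 m, Or.inr ⟨(l.map ρ, _, _, b), by simpa using hl, ⟨(hok.map hρm).1, ?_⟩,
      hin m c hc, hin m c' hc', hb.trans_le (hmono (hR1.monotone (hν hp))), ?_⟩⟩
    · intro x hx
      obtain ⟨y, hy, rfl⟩ := List.mem_map.1 hx
      exact hρm.monotone (show m + 1 ≤ y from hok.2 y hy)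
    · rw [List.map_map, List.map_map]
      exact hne

end Pool.Agent.P.MP_9014a2_lc.TF
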