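import Pool.Agent.P.MP_9014a2_lc.Model
import Pool.Agent.P.MP_9014a2_lc.W.Arith
import Pool.Agent.P.MP_9014a2_lc.W.Cl
import Pool.Agent.P.MP_9014a2_lc.W.Ind
import Pool.Agent.P.MP_9014a2_lc.W.Main
import Pool.Agent.P.MP_9014a2_lc.W.Oc
import Pool.Agent.P.MP_9014a2_lc.W.Rand
import Pool.Agent.P.MP_9014a2_lc.W.Thin
import Pool.Agent.P.MP_9014a2_lc.W.Tl

/-! Thin sets give free sets in the presence of weak Koenig's lemma. -/

namespace Pool.Agent.P.MP_9014a2_lc.TF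

theorem t1_of_t2 (I : Set (ℕ → Bool)) (hI : TuringIdeal I) (hW : WK I) {k m : ℕ} (hk : 1 ≤ k)
    (h : T2 I k) (hm : m ≤ k) : T1 I m :=
  Model.t1 (all_main (all_ind (all_tl (all_cl (all_ocn (all_oc (all_R all_rand))) all_th1) all_ar
    all_ch)) all_thm I k hI hW hk fun n hn => all_th0 I k n hI h hn) hm

end Pool.Agent.P.MP_9014a2_lc.TF
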