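import Pool.Agent.P.MP_9014a2_lc.Defs

namespace Pool.Agent.P.MP_9014a2_lc

/-- The binary strings whose code lies in `T` are closed under initial segments. -/
def IsTree (T : ℕ → Bool) : Prop :=
  ∀ s t : List Bool, s <+: t → T (Encodable.encode t) = true → T (Encodable.encode s) = true

/-- Scott ideals: Turing ideals in which every infinite binary tree has a path. -/
structure ScottIdeal (I : Set (ℕ → Bool)) : Prop extends TuringIdeal I where
  path : ∀ T ∈ I, IsTree T → {s : List Bool | T (Encodable.encode s) = true}.Infinite →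
    ∃ Z ∈ I, ∀ n, T (Encodable.encode ((List.range n).map Z)) = true

/-- The principle `P` at a finite exponent `k`, and at all exponents `≥ 1` for `k = ⊤`. -/
def Lvl (P : Set (ℕ → Bool) → ℕ → Prop) (I : Set (ℕ → Bool)) (k : ℕ∞) : Prop :=
  (∀ j : ℕ, k = j → P I j) ∧ (k = ⊤ → ∀ j : ℕ, 1 ≤ j → P I j)

end Pool.Agent.P.MP_9014a2_lc
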