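import Pool.Agent.P.MP_9014a2_lc.Runs

/-!
Thin sets give free sets in Scott ideals: definitions and the statements of the pieces.
Lists of times are strictly decreasing (the latest time is the head).
-/

namespace Pool.Agent.P.MP_9014a2_lc.TF

open Pool.Agent.Lib.Helper43 Encodable Filter

/-- every nonempty effectively closed class has a member in `I` -/
def WK (I : Set (ℕ → Bool)) : Prop :=
  ∀ X ∈ I, ∀ P, Op X P → (∃ Z, ¬ P Z) → ∃ Z ∈ I, ¬ P Z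

/-- `f` is computable in a member of `I` -/
def In (I : Set (ℕ → Bool)) {α β : Type} [Primcodable α] [Primcodable β] (f : α → β) : Prop :=
  ∃ X ∈ I, CI X f

/-- `l` is strictly decreasing with all entries above `m` -/
def Ok (m : ℕ) (l : List ℕ) : Prop := l.Pairwise (· > ·) ∧ ∀ x ∈ l, m < x

/-- thin sets in `I` for colourings of decreasing `n`-tuples computable in `φ X` -/
def Th (I : Set (ℕ → Bool)) (φ : (ℕ → Bool) → ℕ → Bool) (n : ℕ) : Prop :=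
  ∀ X ∈ I, ∀ f : List ℕ → ℕ, CI (φ X) f → ∃ lam : ℕ → ℕ, StrictMono lam ∧ In I lam ∧
    ∃ c, ∀ l : List ℕ, l.length = n → l.Pairwise (· > ·) → f (l.map lam) ≠ c

/-- size of sets that meet every colour -/
def tt (q V : ℕ) : ℕ := 2 * q * (V.size + 1) + 1

/-- one compression -/
def st (D V : ℕ) : ℕ := D * tt D V

/-- reindexing of the times -/
def re (lam : ℕ → ℕ) (U : ℕ × List ℕ → ℕ) : ℕ × List ℕ → ℕ := fun p => U (p.1, p.2.map lam)

/-- for large `m`, each row of `U` at level `m` takes at most `V m` values -/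
def Few (U : ℕ × List ℕ → ℕ) (r : ℕ) (V : ℕ → ℕ) : Prop :=
  ∀ᶠ m in atTop, ∀ π : List ℕ, π.length = r → ∃ S : Finset ℕ, S.card ≤ V m ∧
    ∀ l, Ok m (l :: π) → U (m, l :: π) ∈ S

/-- subarrays of the triangular array of points `(m, c)`, `c ≤ m` -/
structure Sub (σ : ℕ × ℕ → ℕ × ℕ) (μ : ℕ → ℕ) : Prop where
  mono : StrictMono μ
  fst : ∀ y, (σ y).1 = μ y.1
  le : ∀ y : ℕ × ℕ, y.2 ≤ y.1 → (σ y).2 ≤ μ y.1
  inj : ∀ i c c', c ≤ i → c' ≤ i → σ (i, c) = σ (i, c') → c = c'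

/-- on the subarray `σ`, `H` does not depend on the columns of the first `j` of `j + n` points -/
def Ind (H : ℕ × List (ℕ × ℕ) → Bool) (g : ℕ → ℕ) (j n : ℕ) (σ : ℕ × ℕ → ℕ × ℕ) (μ : ℕ → ℕ) :
    Prop :=
  ∀ (p a : ℕ) (b b' e : List (ℕ × ℕ)), a < g (μ p) → b.length = j → e.length = n →
    b.map Prod.fst = b'.map Prod.fst → Ok p ((b ++ e).map Prod.fst) →
    (∀ y ∈ b, y.2 ≤ y.1) → (∀ y ∈ b', y.2 ≤ y.1) → (∀ y ∈ e, y.2 ≤ y.1) →
    H (a, (b ++ e).map σ) = H (a, (b' ++ e).map σ)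

/-! ### Statements -/

/-- colourings in which every large set sees every colour -/
def S_rand : Prop := ∀ q V : ℕ, ∃ χ : ℕ → ℕ → ℕ, ∀ c < q, ∀ S ⊆ Finset.range V,
  tt q V ≤ S.card → ∃ a ∈ S, ∃ b ∈ S, a < b ∧ χ a b = c

/-- the same, uniformly computable -/
def S_R : Prop := ∀ X : ℕ → Bool, ∃ R : (ℕ × ℕ) × ℕ × ℕ → ℕ, CI X R ∧ ∀ q V : ℕ, ∀ c < q,
  ∀ S ⊆ Finset.range V, tt q V ≤ S.card → ∃ a ∈ S, ∃ b ∈ S, a < b ∧ R ((q, V), a, b) = c

def S_th0 : Prop := ∀ (I : Set (ℕ → Bool)) (k n : ℕ), TuringIdeal I → T2 I k → n ≤ k →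
  Th I (fun X => X) n

def S_th1 : Prop := ∀ (I : Set (ℕ → Bool)) (n : ℕ), TuringIdeal I → Th I (fun X => X) (n + 1) →
  Th I jump n

/-- finitely many colourings omit a common colour -/
def S_thm : Prop := ∀ (I : Set (ℕ → Bool)) (n r : ℕ), TuringIdeal I → Th I (fun X => X) n →
  ∀ f : ℕ × List ℕ → ℕ, In I f → ∃ lam : ℕ → ℕ, StrictMono lam ∧ In I lam ∧
    ∃ c, ∀ e < r, ∀ l : List ℕ, l.length = n → l.Pairwise (· > ·) → f (e, l.map lam) ≠ c

/-- one compression step -/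
def S_oc : Prop := ∀ (I : Set (ℕ → Bool)) (φ : (ℕ → Bool) → ℕ → Bool) (r : ℕ),
  Th I φ (r + 2) → ∀ X ∈ I, ∀ (U : ℕ × List ℕ → ℕ) (E D V : ℕ → ℕ), CI (φ X) U → CI (φ X) D →
  CI (φ X) V → (∀ p, U p < E p.1) → (∀ m, m < D m ∧ ∏ i ∈ Finset.range m, E i ≤ D m) →
  Few U r V → ∃ lam : ℕ → ℕ, StrictMono lam ∧ In I lam ∧
    Few (re lam U) r fun m => st (D m) (V m)

/-- iterated compression -/
def S_ocn : Prop := ∀ (I : Set (ℕ → Bool)) (φ : (ℕ → Bool) → ℕ → Bool) (r n : ℕ),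
  TuringIdeal I → (∀ X Y, Red X Y → Red (φ X) (φ Y)) → (∀ X, Red X (φ X)) →
  Th I φ (r + 2) → ∀ X ∈ I, ∀ (U : ℕ × List ℕ → ℕ) (E D : ℕ → ℕ), CI (φ X) U → CI (φ X) D →
  CI (φ X) E → (∀ p, U p < E p.1) → (∀ m, m < D m ∧ ∏ i ∈ Finset.range m, E i ≤ D m) →
  ∃ lam : ℕ → ℕ, StrictMono lam ∧ In I lam ∧
    Few (re lam U) r fun m => (st (D m))^[n] (E m)

/-- few versions -/
def S_cl : Prop := ∀ (I : Set (ℕ → Bool)) (j : ℕ), TuringIdeal I →
  (∀ n ≤ j + 1, Th I (fun X => X) n) → ∀ X ∈ I, ∀ (a : ℕ × List ℕ → ℕ) (V D : ℕ → ℕ),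
  CI X a → CI X V → CI X D → (∀ p, a p < V p.1) →
  (∀ m, m < D m ∧ ∏ i ∈ Finset.range m, 2 ^ V i ≤ D m) →
  ∃ lam : ℕ → ℕ, StrictMono lam ∧ In I lam ∧ ∀ᶠ m in atTop, ∃ S : Finset ℕ,
    S.card ≤ ((st (D m))^[4] (2 ^ V m)) ^ j ∧
      ∀ ρ : List ℕ, ρ.length = j → Ok m ρ → a (m, ρ.map lam) ∈ S

/-- four compressions are enough -/
def S_ar : Prop := ∀ j G D P : ℕ, ∃ n, P < n ∧
  2 ^ (((st D)^[4] (2 ^ 2 ^ (n * G))) ^ j * G) * D < n

/-- bounded choice -/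
def S_ch : Prop := ∀ (I : Set (ℕ → Bool)), TuringIdeal I → WK I → ∀ X ∈ I,
  ∀ (Bad : ℕ × ℕ → Prop) (b : ℕ → ℕ), Sig X Bad → CI X b → (∀ i, ∃ e < b i, ¬ Bad (i, e)) →
  ∃ e : ℕ → ℕ, In I e ∧ ∀ i, ¬ Bad (i, e i)

/-- twin columns -/
def S_tl : Prop := ∀ (I : Set (ℕ → Bool)) (j : ℕ), TuringIdeal I → WK I →
  (∀ n ≤ j + 1, Th I (fun X => X) n) → ∀ X ∈ I, ∀ (τ : ℕ × (ℕ × ℕ) × List ℕ → Bool) (g : ℕ → ℕ),
  CI X τ → CI X g → Monotone g → ∃ σ μ, Sub σ μ ∧ In I σ ∧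
    ∀ (p m a c c' : ℕ) (l : List ℕ), p < m → a < g (μ p) → c ≤ m → c' ≤ m → l.length = j →
      Ok m l → τ (a, σ (m, c), l.map μ) = τ (a, σ (m, c'), l.map μ)

/-- independence of all columns -/
def S_ind : Prop := ∀ (I : Set (ℕ → Bool)) (k : ℕ), TuringIdeal I → WK I →
  (∀ n ≤ k, Th I (fun X => X) n) → ∀ X ∈ I, ∀ (H : ℕ × List (ℕ × ℕ) → Bool) (g : ℕ → ℕ),
  CI X H → CI X g → Monotone g → ∃ σ μ, Sub σ μ ∧ In I σ ∧ Ind H g k 0 σ μ

/-- free sets -/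
def S_main : Prop := ∀ (I : Set (ℕ → Bool)) (k : ℕ), TuringIdeal I → WK I → 1 ≤ k →
  (∀ n ≤ k, Th I (fun X => X) n) → ∀ X ∈ I, ∀ F : List ℕ → ℕ, CI X F → ∃ H ∈ I, Free k F H

/-! ### Toolbox -/

variable {α β γ : Type} [Primcodable α] [Primcodable β] [Primcodable γ] {X : ℕ → Bool}
  {I : Set (ℕ → Bool)}

theorem mem_of_red (hI : TuringIdeal I) {A B : ℕ → Bool} (hA : A ∈ I) (h : Red B A) : B ∈ I :=
  hI.red_mem A hA B (red_iff.1 h)

/-- a common upper bound -/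
theorem exists_ub (hI : TuringIdeal I) {A B : ℕ → Bool} (hA : A ∈ I) (hB : B ∈ I) :
    ∃ Z ∈ I, Red A Z ∧ Red B Z :=
  ⟨_, hI.join_mem A hA B hB, red_left A B, red_right A B⟩

/-- move a function of the ideal above a given member -/
theorem In.above (hI : TuringIdeal I) {f : α → β} (hf : In I f) (hX : X ∈ I) :
    ∃ Z ∈ I, Red X Z ∧ CI Z f := by
  obtain ⟨Y, hY, h⟩ := hf
  obtain ⟨Z, hZ, h1, h2⟩ := exists_ub hI hX hY
  exact ⟨Z, hZ, h1, h.mono h2⟩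

theorem In.comp (hI : TuringIdeal I) {f : β → γ} {g : α → β} (hf : In I f) (hg : In I g) :
    In I fun a => f (g a) := by
  obtain ⟨Y, hY, h⟩ := hg
  obtain ⟨Z, hZ, h1, h2⟩ := hf.above hI hY
  exact ⟨Z, hZ, h2.comp (h.mono h1)⟩

@[fun_prop] theorem di_dec {l : α → List ℕ} (hl : CI X l) :
    DI X fun a => (l a).Pairwise (· > ·) := by
  refine DI.of_iff (p := fun a => ∀ j < (l a).length, ∀ i < j, (l a).getD j 0 < (l a).getD i 0)
    (DI.allLt (DI.allLt (by fun_prop) (by fun_prop)) (by fun_prop)) fun a => ?_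
  rw [List.pairwise_iff_getElem]
  refine ⟨fun h i j hi hj hij => ?_, fun h j hj i hij => ?_⟩
  · have := h j hj i hij
    rwa [List.getD_eq_getElem _ _ hi, List.getD_eq_getElem _ _ hj] at this
  · rw [List.getD_eq_getElem _ _ (hij.trans hj), List.getD_eq_getElem _ _ hj]
    exact h i j _ _ hij

@[fun_prop] theorem di_ok {m : α → ℕ} {l : α → List ℕ} (hm : CI X m) (hl : CI X l) :
    DI X fun a => Ok (m a) (l a) :=
  (di_dec hl).and (DI.allL (by fun_prop) hl)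

theorem Ok.map {m : ℕ} {l : List ℕ} {lam : ℕ → ℕ} (h : Ok m l) (hl : StrictMono lam) :
    Ok m (l.map lam) :=
  ⟨List.pairwise_map.2 (h.1.imp fun hab => hl hab), fun x hx => by
    obtain ⟨y, hy, rfl⟩ := List.mem_map.1 hx
    exact (h.2 y hy).trans_le (hl.id_le y)⟩

theorem Ok.map' {m : ℕ} {l : List ℕ} {lam : ℕ → ℕ} (h : Ok m l) (hl : StrictMono lam) :
    Ok (lam m) (l.map lam) :=
  ⟨(h.map hl).1, fun x hx => by
    obtain ⟨y, hy, rfl⟩ := List.mem_map.1 hx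
    exact hl (h.2 y hy)⟩

@[fun_prop] theorem ci_size {f : α → ℕ} (hf : CI X f) : CI X fun a => (f a).size := by
  have hex : ∀ a, ∃ s, f a < 2 ^ s := fun a => ⟨_, Nat.lt_size_self _⟩
  refine (CI.find (p := fun a s => f a < 2 ^ s) (inst := fun _ _ => inferInstance)
    (by fun_prop) hex).of_eq fun a => ?_
  rw [Nat.find_eq_iff]
  exact ⟨Nat.lt_size_self _, fun n hn h => absurd (Nat.size_le.2 h) (by omega)⟩

@[fun_prop] theorem ci_tt {f g : α → ℕ} (hf : CI X f) (hg : CI X g) :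
    CI X fun a => tt (f a) (g a) := by
  unfold tt
  fun_prop

@[fun_prop] theorem ci_st {f g : α → ℕ} (hf : CI X f) (hg : CI X g) :
    CI X fun a => st (f a) (g a) := by
  unfold st
  fun_prop

theorem ci_stn (n : ℕ) {f g : α → ℕ} (hf : CI X f) (hg : CI X g) :
    CI X fun a => (st (f a))^[n] (g a) := by
  induction n with
  | zero => exact hg
  | succ n ih => exact (ci_st hf ih).of_eq fun a => by rw [Function.iterate_succ_apply']

theorem pair_mono {a b c d : ℕ} (h : a ≤ c) (h' : b ≤ d) : Nat.pair a b ≤ Nat.pair c d := by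
  have h1 : Nat.pair a b ≤ Nat.pair c b :=
    h.eq_or_lt.elim (fun e => e ▸ le_rfl) fun h => (Nat.pair_lt_pair_left b h).le
  exact h1.trans (h'.eq_or_lt.elim (fun e => e ▸ le_rfl) fun h => (Nat.pair_lt_pair_right c h).le)

/-- codes of short lists with small entries are small -/
theorem encode_le (l : List α) (b : α) (n : ℕ) (hl : l.length ≤ n)
    (hb : ∀ x ∈ l, encode x ≤ encode b) : encode l ≤ encode (List.replicate n b) := by
  induction l generalizing n with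
  | nil => exact Nat.zero_le _
  | cons x l ih =>
    obtain ⟨n, rfl⟩ : ∃ m, n = m + 1 := ⟨n - 1, by simp at hl; omega⟩
    rw [List.replicate_succ, encode_list_cons, encode_list_cons]
    exact Nat.succ_le_succ (pair_mono (hb x List.mem_cons_self)
      (ih n (by simpa using hl) fun y hy => hb y (List.mem_cons_of_mem _ hy)))

theorem ci_replicate (n : ℕ) {f : α → β} (hf : CI X f) :
    CI X fun a => encode (List.replicate n (f a)) :=
  (CI.of_comp Computable.encode).comp ((CI.map (l := fun _ => List.range n)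
    (g := fun a _ => f a) (by fun_prop) (CI.const _)).of_eq fun a => by simp)

theorem ci_decode (d : β) {f : α → ℕ} (hf : CI X f) :
    CI X fun a => (decode (α := β) (f a)).getD d :=
  (CI.of_comp (f := fun n : ℕ => (decode (α := β) n).getD d)
    (CFP.optGetD Computable.decode (Computable.const d))).comp hf

theorem fc_lt {T : Finset ℕ} {n : ℕ} (h : T ⊆ Finset.range n) : fc T < 2 ^ n :=
  Nat.geomSum_lt le_rfl fun _ hk => Finset.mem_range.1 (h hk)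

theorem Sub.id : Sub (fun y => y) fun i => i :=
  ⟨strictMono_id, fun _ => rfl, fun _ h => h, fun _ _ _ _ _ h => (Prod.mk.inj h).2⟩

theorem Sub.valid {σ μ} (h : Sub σ μ) {y : ℕ × ℕ} (hy : y.2 ≤ y.1) : (σ y).2 ≤ (σ y).1 :=
  h.fst y ▸ h.le y hy

theorem Sub.comp {σ μ σ' μ'} (h : Sub σ μ) (h' : Sub σ' μ') :
    Sub (fun y => σ (σ' y)) fun i => μ (μ' i) := by
  refine ⟨h.mono.comp h'.mono, fun y => by rw [h.fst, h'.fst], fun y hy => ?_,
    fun i c c' hc hc' e => ?_⟩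
  · rw [← h'.fst]
    exact h.le _ (h'.valid hy)
  · have e1 : σ' (i, c) = (μ' i, (σ' (i, c)).2) := Prod.ext (h'.fst _) rfl
    have e2 : σ' (i, c') = (μ' i, (σ' (i, c')).2) := Prod.ext (h'.fst _) rfl
    rw [e1, e2] at e
    refine h'.inj i c c' hc hc' ?_
    rw [e1, e2, h.inj _ _ _ (h'.le (i, c) hc) (h'.le (i, c') hc') e]

theorem Sub.ci {σ μ} (h : Sub σ μ) (hσ : CI X σ) : CI X μ :=
  (CI.fst (hσ.comp (g := fun i : ℕ => (i, 0)) (by fun_prop))).of_eq fun i => h.fst _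

end Pool.Agent.P.MP_9014a2_lc.TF
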